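import Pool.Agent.H442R2.KF.Diag
import Pool.Agent.H442R2.KF.Hat
import Pool.Agent.H442R2.KF.Fix2

/-!
Maximum over the residues inside, all moduli: the diagonal for sparse coefficients.
-/

set_option autoImplicit false

namespace Pool.Agent.W109.C

open Finset
open Pool.Agent.H442R2.KF

/-- sparse coefficients -/
structure Sp (D : ℕ) (T : Finset ℕ) (τ : ℝ) (c : ℕ → ℝ) : Prop where
  bd : ∀ d, |c d| ≤ 1
  supp : ∀ d, d ∉ T → c d = 0
  sub : T ⊆ Ioc D (2 * D)
  div : ∀ d ∈ T, tau d ≤ τ

lemma Sp.cof {D : ℕ} {T : Finset ℕ} {τ : ℝ} {c : ℕ → ℝ} (h : Sp D T τ c) : Cof D c :=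
  ⟨h.bd, fun d hd => h.supp d fun hT => hd (h.sub hT)⟩

/-- the number of elements of `T` divisible by `q` -/
noncomputable def nT (T : Finset ℕ) (q : ℕ) : ℝ := ((T.filter (fun e => q ∣ e)).card : ℝ)

lemma nT_nonneg (T : Finset ℕ) (q : ℕ) : 0 ≤ nT T q := Nat.cast_nonneg _

lemma nT_eq (T : Finset ℕ) (q : ℕ) : nT T q = ∑ e ∈ T, if q ∣ e then (1 : ℝ) else 0 := by
  unfold nT
  rw [card_filter]
  push_cast
  rfl

lemma uh_sp {D : ℕ} {T : Finset ℕ} {τ : ℝ} {c : ℕ → ℝ} (h : Sp D T τ c) (hD : 1 ≤ D) (q : ℕ) :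
    |uh c (2 * D) q| ≤ 1 / D * nT T q := by
  have hD0 : (0 : ℝ) < D := by exact_mod_cast hD
  unfold uh
  refine (abs_sum_le_sum_abs _ _).trans ?_
  have h1 : T.filter (fun e => q ∣ e) ⊆ (Icc 1 (2 * D)).filter (fun d => q ∣ d) := by
    intro e he
    rw [mem_filter] at he ⊢
    have := h.sub he.1
    rw [mem_Ioc] at this
    rw [mem_Icc]
    exact ⟨by omega, he.2⟩
  rw [← sum_subset h1]
  · calc ∑ e ∈ T.filter (fun e => q ∣ e), |c e / e| ≤ ∑ e ∈ T.filter (fun e => q ∣ e), 1 / (D : ℝ) := by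
          refine sum_le_sum fun e he => ?_
          rw [mem_filter] at he
          have h2 := h.sub he.1
          rw [mem_Ioc] at h2
          have h3 : (D : ℝ) ≤ e := by exact_mod_cast h2.1.le
          rw [abs_div, Nat.abs_cast]
          exact div_le_div₀ zero_le_one (h.bd e) hD0 h3
      _ = _ := by
          rw [sum_const, nsmul_eq_mul, mul_comm]
          rfl
  · intro e he hn
    rw [mem_filter] at he
    rw [mem_filter, not_and] at hn
    have : e ∉ T := fun hT => hn hT he.2
    rw [h.supp e this, zero_div, abs_zero]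

lemma ww_sp {D : ℕ} {T : Finset ℕ} {τ : ℝ} {c : ℕ → ℝ} (h : Sp D T τ c) (hD : 1 ≤ D)
    (Q d : ℕ) : |ww c (2 * D) Q d| ≤ τ / D * (d * nT T d) := by
  have hD0 : (0 : ℝ) < D := by exact_mod_cast hD
  have hmul : ∀ e ∈ T, 0 ≤ τ := fun e he => le_trans (TaskP.tau_nonneg e) (h.div e he)
  have hR : 0 ≤ τ / D * (d * nT T d) := by
    rcases T.eq_empty_or_nonempty with rfl | ⟨e, he⟩
    · unfold nT; simp
    · have := hmul e he
      have := nT_nonneg T d
      positivity
  unfold ww
  split_ifs with hd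
  swap
  · rw [abs_zero]; exact hR
  have hcard : ∀ e ∈ T, ((((Icc 1 Q).filter (fun q => d ∣ q)).filter (fun q => q ∣ e)).card : ℝ) ≤
      if d ∣ e then τ else 0 := by
    intro e he
    split_ifs with hde
    · refine le_trans ?_ (h.div e he)
      unfold tau
      have : ((Icc 1 Q).filter (fun q => d ∣ q)).filter (fun q => q ∣ e) ⊆ e.divisors := by
        intro q hq
        rw [mem_filter] at hq
        have h2 := h.sub he
        rw [mem_Ioc] at h2
        exact Nat.mem_divisors.2 ⟨hq.2, by omega⟩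
      exact_mod_cast card_le_card this
    · have : ((Icc 1 Q).filter (fun q => d ∣ q)).filter (fun q => q ∣ e) = ∅ := by
        rw [filter_eq_empty_iff]
        intro q hq hqe
        rw [mem_filter] at hq
        exact hde (hq.2.trans hqe)
      rw [this]
      simp
  have h1 : |∑ q ∈ (Icc 1 Q).filter (fun q => d ∣ q),
      (ArithmeticFunction.moebius (q / d) : ℝ) * uh c (2 * D) q| ≤ τ / D * nT T d := by
    calc |∑ q ∈ (Icc 1 Q).filter (fun q => d ∣ q),
          (ArithmeticFunction.moebius (q / d) : ℝ) * uh c (2 * D) q|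
        ≤ ∑ q ∈ (Icc 1 Q).filter (fun q => d ∣ q),
          |(ArithmeticFunction.moebius (q / d) : ℝ) * uh c (2 * D) q| := abs_sum_le_sum_abs _ _
      _ ≤ ∑ q ∈ (Icc 1 Q).filter (fun q => d ∣ q), 1 / D * nT T q := by
          refine sum_le_sum fun q _ => ?_
          rw [abs_mul]
          refine le_trans ?_ (uh_sp h hD q)
          refine mul_le_of_le_one_left (abs_nonneg _) ?_
          have := ArithmeticFunction.abs_moebius_le_one (n := q / d)
          exact_mod_cast this
      _ = 1 / D * ∑ e ∈ T, ((((Icc 1 Q).filter (fun q => d ∣ q)).filter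
            (fun q => q ∣ e)).card : ℝ) := by
          rw [← mul_sum]
          congr 1
          simp_rw [nT_eq]
          rw [sum_comm]
          refine sum_congr rfl fun e _ => ?_
          rw [card_filter]
          push_cast
          rfl
      _ ≤ 1 / D * ∑ e ∈ T, (if d ∣ e then τ else 0) := by
          refine mul_le_mul_of_nonneg_left (sum_le_sum hcard) (by positivity)
      _ = τ / D * nT T d := by
          rw [nT_eq]
          have : ∑ e ∈ T, (if d ∣ e then τ else 0) = τ * ∑ e ∈ T, (if d ∣ e then (1 : ℝ) else 0) := by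
            rw [mul_sum]
            refine sum_congr rfl fun e _ => ?_
            split_ifs <;> simp
          rw [this]
          ring
  rw [abs_mul, Nat.abs_cast]
  calc (d : ℝ) * |∑ q ∈ (Icc 1 Q).filter (fun q => d ∣ q),
        (ArithmeticFunction.moebius (q / d) : ℝ) * uh c (2 * D) q|
      ≤ d * (τ / D * nT T d) := mul_le_mul_of_nonneg_left h1 (Nat.cast_nonneg _)
    _ = _ := by ring

/-- divisor sums -/
lemma sum_tau (x : ℕ) : ∑ m ∈ Icc 1 x, tau m ≤ x * (1 + Real.log x) := by
  have h1 : ∀ m ∈ Icc 1 x, tau m ≤ ∑ i ∈ Icc 1 x, if i ∣ m then (1 : ℝ) else 0 := by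
    intro m hm
    rw [mem_Icc] at hm
    unfold tau
    have h2 : m.divisors ⊆ (Icc 1 x).filter (fun i => i ∣ m) := by
      intro i hi
      have h3 := Nat.dvd_of_mem_divisors hi
      have h4 := Nat.pos_of_mem_divisors hi
      have h5 := Nat.le_of_dvd (by omega) h3
      rw [mem_filter, mem_Icc]
      exact ⟨by omega, h3⟩
    have h6 : ((m.divisors.card : ℕ) : ℝ) ≤ (((Icc 1 x).filter (fun i => i ∣ m)).card : ℝ) := by
      exact_mod_cast card_le_card h2
    refine h6.trans (le_of_eq ?_)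
    rw [card_filter]
    push_cast
    rfl
  calc ∑ m ∈ Icc 1 x, tau m ≤ ∑ m ∈ Icc 1 x, ∑ i ∈ Icc 1 x, if i ∣ m then (1 : ℝ) else 0 :=
        sum_le_sum h1
    _ = ∑ i ∈ Icc 1 x, ∑ m ∈ Icc 1 x, if i ∣ m then (1 : ℝ) else 0 := sum_comm
    _ ≤ ∑ i ∈ Icc 1 x, (x : ℝ) * (1 / i) := by
        refine sum_le_sum fun i hi => ?_
        rw [mem_Icc] at hi
        have h7 : ∑ m ∈ Icc 1 x, (if i ∣ m then (1 : ℝ) else 0) =
            (((Icc 1 x).filter (fun m => i ∣ m)).card : ℝ) := by
          rw [card_filter]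
          push_cast
          rfl
        have hcard : ((Icc 1 x).filter (fun m => i ∣ m)).card = x / i := by
          have := Nat.card_multiples' x i
          rw [← this]
          congr 1
          ext m
          simp only [Finset.mem_filter, Finset.mem_Icc, Finset.mem_range]
          constructor
          · rintro ⟨⟨h1, h2⟩, h3⟩; exact ⟨by omega, by omega, h3⟩
          · rintro ⟨h1, h2, h3⟩; exact ⟨⟨by omega, by omega⟩, h3⟩
        rw [h7, hcard]
        refine Nat.cast_div_le.trans (le_of_eq ?_)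
        ring
    _ = x * ∑ i ∈ Icc 1 x, (1 : ℝ) / i := by rw [mul_sum]
    _ ≤ x * (1 + Real.log x) := mul_le_mul_of_nonneg_left (TaskP.harm x) (Nat.cast_nonneg _)

lemma tau_mul_le (a b : ℕ) : tau (a * b) ≤ tau a * tau b := by
  unfold tau
  exact_mod_cast TaskTF.card_divisors_mul_le a b

lemma sum_tau_mul (d x : ℕ) (hd : 1 ≤ d) :
    ∑ m ∈ (Icc 1 x).filter (fun m => d ∣ m), tau m ≤ tau d * (x / d * (1 + Real.log x)) := by
  have hd0 : (0 : ℝ) < d := by exact_mod_cast hd
  have h1 : (Icc 1 x).filter (fun m => d ∣ m) = (Icc 1 (x / d)).image (fun k => d * k) := by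
    ext m
    rw [mem_filter, mem_Icc, mem_image]
    constructor
    · rintro ⟨⟨h1, h2⟩, k, rfl⟩
      refine ⟨k, ?_, rfl⟩
      rw [mem_Icc]
      refine ⟨?_, ?_⟩
      · rcases Nat.eq_zero_or_pos k with rfl | hk
        · omega
        · exact hk
      · rw [Nat.le_div_iff_mul_le (by omega), mul_comm]
        exact h2
    · rintro ⟨k, hk, rfl⟩
      rw [mem_Icc] at hk
      refine ⟨⟨Nat.mul_pos (by omega) (by omega), ?_⟩, Dvd.intro _ rfl⟩
      calc d * k ≤ d * (x / d) := Nat.mul_le_mul_left _ hk.2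
        _ ≤ x := Nat.mul_div_le _ _
  rw [h1, sum_image (fun k _ k' _ hkk => Nat.eq_of_mul_eq_mul_left (by omega) hkk)]
  have hlog : Real.log ((x / d : ℕ) : ℝ) ≤ Real.log x := by
    rcases Nat.eq_zero_or_pos (x / d) with h0 | h0
    · rw [h0, Nat.cast_zero, Real.log_zero]
      exact Real.log_natCast_nonneg x
    · apply Real.log_le_log (by exact_mod_cast h0)
      exact_mod_cast Nat.div_le_self x d
  have hlx : 0 ≤ Real.log (x : ℝ) := Real.log_natCast_nonneg x
  calc ∑ k ∈ Icc 1 (x / d), tau (d * k) ≤ ∑ k ∈ Icc 1 (x / d), tau d * tau k :=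
        sum_le_sum fun k _ => tau_mul_le d k
    _ = tau d * ∑ k ∈ Icc 1 (x / d), tau k := by rw [mul_sum]
    _ ≤ tau d * (((x / d : ℕ) : ℝ) * (1 + Real.log ((x / d : ℕ) : ℝ))) :=
        mul_le_mul_of_nonneg_left (sum_tau _) (TaskP.tau_nonneg _)
    _ ≤ tau d * (x / d * (1 + Real.log x)) := by
        refine mul_le_mul_of_nonneg_left ?_ (TaskP.tau_nonneg _)
        have h2 : ((x / d : ℕ) : ℝ) ≤ (x : ℝ) / d := Nat.cast_div_le
        have h3 : (0 : ℝ) ≤ ((x / d : ℕ) : ℝ) := Nat.cast_nonneg _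
        have h4 : (0 : ℝ) ≤ (x : ℝ) / d := by positivity
        nlinarith

/-- the divisors `d ≤ X` of `m` counted with `|u|` -/
noncomputable def gu (u : ℕ → ℝ) (X m : ℕ) : ℝ := ∑ d ∈ (Icc 1 X).filter (fun d => d ∣ m), |u d|

lemma gu_nonneg (u : ℕ → ℝ) (X m : ℕ) : 0 ≤ gu u X m := sum_nonneg fun _ _ => abs_nonneg _

/-- the second moment of the divisor sum -/
lemma gu_sq {D : ℕ} {T : Finset ℕ} {τ : ℝ} {c : ℕ → ℝ} (h : Sp D T τ c) (hD : 1 ≤ D) (hτ : 1 ≤ τ)
    (Q x : ℕ) : ∑ m ∈ Icc 1 x, gu (uu c (2 * D) Q) (2 * D) m ^ 2 ≤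
      6 * (x * (1 + Real.log x)) * τ ^ 4 * (T.card / D) := by
  have hD0 : (0 : ℝ) < D := by exact_mod_cast hD
  have hlx : 0 ≤ Real.log (x : ℝ) := Real.log_natCast_nonneg x
  obtain ⟨Z, hZ⟩ : ∃ Z : ℝ, Z = x * (1 + Real.log x) := ⟨_, rfl⟩
  have hZ0 : 0 ≤ Z := by rw [hZ]; positivity
  have hTm : ∀ e ∈ T, D < e ∧ e ≤ 2 * D := fun e he => mem_Ioc.1 (h.sub he)
  -- pointwise
  obtain ⟨p1, hp1⟩ : ∃ p1 : ℕ → ℝ, ∀ m, p1 m = ((T.filter (fun e => e ∣ m)).card : ℝ) :=
    ⟨_, fun _ => rfl⟩
  obtain ⟨p2, hp2⟩ : ∃ p2 : ℕ → ℝ, ∀ m, p2 m = ∑ d ∈ (Icc 1 (2 * D)).filter (fun d => d ∣ m),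
      (d : ℝ) * nT T d := ⟨_, fun _ => rfl⟩
  have hp1n : ∀ m, 0 ≤ p1 m := fun m => by rw [hp1]; exact Nat.cast_nonneg _
  have hp2n : ∀ m, 0 ≤ p2 m := fun m => by
    rw [hp2]
    exact sum_nonneg fun d _ => mul_nonneg (Nat.cast_nonneg _) (nT_nonneg _ _)
  have hgu : ∀ m, gu (uu c (2 * D) Q) (2 * D) m ≤ p1 m + τ / D * p2 m := by
    intro m
    unfold gu
    calc ∑ d ∈ (Icc 1 (2 * D)).filter (fun d => d ∣ m), |uu c (2 * D) Q d|
        ≤ ∑ d ∈ (Icc 1 (2 * D)).filter (fun d => d ∣ m), (|c d| + τ / D * (d * nT T d)) := by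
          refine sum_le_sum fun d _ => ?_
          unfold uu
          exact (abs_sub _ _).trans (add_le_add le_rfl (ww_sp h hD Q d))
      _ = ∑ d ∈ (Icc 1 (2 * D)).filter (fun d => d ∣ m), |c d| + τ / D * p2 m := by
          rw [sum_add_distrib, hp2, mul_sum]
      _ ≤ p1 m + τ / D * p2 m := by
          refine add_le_add ?_ le_rfl
          rw [hp1]
          have h1 : T.filter (fun e => e ∣ m) ⊆ (Icc 1 (2 * D)).filter (fun d => d ∣ m) := by
            intro e he
            rw [mem_filter] at he ⊢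
            have := hTm e he.1
            rw [mem_Icc]
            exact ⟨by omega, he.2⟩
          rw [← sum_subset h1]
          · calc ∑ e ∈ T.filter (fun e => e ∣ m), |c e| ≤ ∑ e ∈ T.filter (fun e => e ∣ m), (1 : ℝ) :=
                  sum_le_sum fun e _ => h.bd e
              _ = _ := by simp
          · intro e he hn
            rw [mem_filter] at he
            rw [mem_filter, not_and] at hn
            rw [h.supp e fun hT => hn hT he.2, abs_zero]
  -- `p1 ≤ tau`
  have hp1t : ∀ m ∈ Icc 1 x, p1 m ≤ tau m := by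
    intro m hm
    rw [mem_Icc] at hm
    rw [hp1]
    unfold tau
    have : T.filter (fun e => e ∣ m) ⊆ m.divisors := by
      intro e he
      rw [mem_filter] at he
      exact Nat.mem_divisors.2 ⟨he.2, by omega⟩
    exact_mod_cast card_le_card this
  -- `p2 ≤ 2 D tau`
  have hnTle : ∀ d : ℕ, 1 ≤ d → (d : ℝ) * nT T d ≤ 2 * D := by
    intro d hd
    unfold nT
    have h1 : (T.filter (fun e => d ∣ e)).card ≤ 2 * D / d := by
      have h2 : T.filter (fun e => d ∣ e) ⊆ (Icc 1 (2 * D)).filter (fun e => d ∣ e) := by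
        intro e he
        rw [mem_filter] at he ⊢
        have := hTm e he.1
        rw [mem_Icc]
        exact ⟨by omega, he.2⟩
      refine (card_le_card h2).trans (le_of_eq ?_)
      have := Nat.card_multiples' (2 * D) d
      rw [← this]
      congr 1
      ext m
      simp only [Finset.mem_filter, Finset.mem_Icc, Finset.mem_range]
      constructor
      · rintro ⟨⟨h1, h2⟩, h3⟩; exact ⟨by omega, by omega, h3⟩
      · rintro ⟨h1, h2, h3⟩; exact ⟨⟨by omega, by omega⟩, h3⟩
    have h3 : d * (T.filter (fun e => d ∣ e)).card ≤ 2 * D :=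
      (Nat.mul_le_mul_left d h1).trans (Nat.mul_div_le _ _)
    exact_mod_cast h3
  have hp2t : ∀ m ∈ Icc 1 x, p2 m ≤ 2 * D * tau m := by
    intro m hm
    rw [mem_Icc] at hm
    rw [hp2]
    calc ∑ d ∈ (Icc 1 (2 * D)).filter (fun d => d ∣ m), (d : ℝ) * nT T d
        ≤ ∑ d ∈ (Icc 1 (2 * D)).filter (fun d => d ∣ m), 2 * (D : ℝ) := by
          refine sum_le_sum fun d hd => hnTle d ?_
          rw [mem_filter, mem_Icc] at hd
          exact hd.1.1
      _ ≤ ∑ d ∈ m.divisors, 2 * (D : ℝ) := by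
          refine sum_le_sum_of_subset_of_nonneg ?_ fun _ _ _ => by positivity
          intro d hd
          rw [mem_filter] at hd
          exact Nat.mem_divisors.2 ⟨hd.2, by omega⟩
      _ = 2 * D * tau m := by
          rw [sum_const, nsmul_eq_mul, mul_comm]
          rfl
  -- the two sums
  have hs1 : ∑ m ∈ Icc 1 x, p1 m ^ 2 ≤ τ * Z * (T.card / D) := by
    calc ∑ m ∈ Icc 1 x, p1 m ^ 2 ≤ ∑ m ∈ Icc 1 x, ∑ e ∈ T, (if e ∣ m then tau m else 0) := by
          refine sum_le_sum fun m hm => ?_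
          have h1 : p1 m = ∑ e ∈ T, if e ∣ m then (1 : ℝ) else 0 := by
            rw [hp1, card_filter]
            push_cast
            rfl
          calc p1 m ^ 2 = p1 m * p1 m := sq _
            _ ≤ tau m * p1 m := mul_le_mul_of_nonneg_right (hp1t m hm) (hp1n m)
            _ = _ := by
                rw [h1, mul_sum]
                refine sum_congr rfl fun e _ => ?_
                split_ifs <;> simp
      _ = ∑ e ∈ T, ∑ m ∈ (Icc 1 x).filter (fun m => e ∣ m), tau m := by
          rw [sum_comm]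
          refine sum_congr rfl fun e _ => ?_
          rw [sum_filter]
      _ ≤ ∑ e ∈ T, τ * (Z / D) := by
          refine sum_le_sum fun e he => ?_
          have h1 := hTm e he
          have he0 : (D : ℝ) ≤ e := by exact_mod_cast h1.1.le
          refine (sum_tau_mul e x (by omega)).trans ?_
          have h2 : (x : ℝ) / e * (1 + Real.log x) ≤ Z / D := by
            calc (x : ℝ) / e * (1 + Real.log x) = Z / e := by rw [hZ]; ring
              _ ≤ Z / D := by gcongr
          exact mul_le_mul (h.div e he) h2 (by positivity) (by linarith)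
      _ = τ * Z * (T.card / D) := by
          rw [sum_const, nsmul_eq_mul]
          ring
  have hs2 : ∑ m ∈ Icc 1 x, p2 m ^ 2 ≤ 2 * D * (τ ^ 2 * Z * T.card) := by
    have hsw : ∀ m, p2 m = ∑ e ∈ T, ∑ d ∈ (Icc 1 (2 * D)).filter (fun d => d ∣ e),
        if d ∣ m then (d : ℝ) else 0 := by
      intro m
      rw [hp2, sum_filter]
      calc ∑ d ∈ Icc 1 (2 * D), (if d ∣ m then (d : ℝ) * nT T d else 0)
          = ∑ d ∈ Icc 1 (2 * D), ∑ e ∈ T, (if d ∣ e then (if d ∣ m then (d : ℝ) else 0) else 0) := by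
            refine sum_congr rfl fun d _ => ?_
            rw [nT_eq]
            split_ifs with hdm
            · rw [mul_sum]
              refine sum_congr rfl fun e _ => ?_
              split_ifs <;> simp
            · simp
        _ = _ := by
            rw [sum_comm]
            refine sum_congr rfl fun e _ => ?_
            rw [sum_filter]
    calc ∑ m ∈ Icc 1 x, p2 m ^ 2 ≤ ∑ m ∈ Icc 1 x, 2 * D * ∑ e ∈ T,
          ∑ d ∈ (Icc 1 (2 * D)).filter (fun d => d ∣ e), (if d ∣ m then (d : ℝ) * tau m else 0) := by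
          refine sum_le_sum fun m hm => ?_
          calc p2 m ^ 2 = p2 m * p2 m := sq _
            _ ≤ 2 * D * tau m * p2 m := mul_le_mul_of_nonneg_right (hp2t m hm) (hp2n m)
            _ = 2 * D * (p2 m * tau m) := by ring
            _ = _ := by
                rw [hsw m, sum_mul]
                congr 1
                refine sum_congr rfl fun e _ => ?_
                rw [sum_mul]
                refine sum_congr rfl fun d _ => ?_
                split_ifs <;> simp
      _ = 2 * D * ∑ e ∈ T, ∑ d ∈ (Icc 1 (2 * D)).filter (fun d => d ∣ e),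
          (d : ℝ) * ∑ m ∈ (Icc 1 x).filter (fun m => d ∣ m), tau m := by
          rw [← mul_sum, sum_comm]
          congr 1
          refine sum_congr rfl fun e _ => ?_
          rw [sum_comm]
          refine sum_congr rfl fun d _ => ?_
          rw [sum_filter, mul_sum]
          refine sum_congr rfl fun m _ => ?_
          split_ifs <;> simp
      _ ≤ 2 * D * ∑ e ∈ T, ∑ d ∈ (Icc 1 (2 * D)).filter (fun d => d ∣ e), τ * Z := by
          refine mul_le_mul_of_nonneg_left ?_ (by positivity)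
          refine sum_le_sum fun e he => sum_le_sum fun d hd => ?_
          rw [mem_filter, mem_Icc] at hd
          have hd0 : (0 : ℝ) < d := by exact_mod_cast hd.1.1
          have he1 := hTm e he
          have htd : tau d ≤ τ := by
            refine le_trans ?_ (h.div e he)
            unfold tau
            exact_mod_cast card_le_card (Nat.divisors_subset_of_dvd (by omega) hd.2)
          calc (d : ℝ) * ∑ m ∈ (Icc 1 x).filter (fun m => d ∣ m), tau m
              ≤ d * (tau d * (x / d * (1 + Real.log x))) :=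
                mul_le_mul_of_nonneg_left (sum_tau_mul d x hd.1.1) hd0.le
            _ = tau d * Z := by rw [hZ]; field_simp
            _ ≤ τ * Z := mul_le_mul_of_nonneg_right htd hZ0
      _ ≤ 2 * D * ∑ e ∈ T, τ * (τ * Z) := by
          refine mul_le_mul_of_nonneg_left ?_ (by positivity)
          refine sum_le_sum fun e he => ?_
          rw [sum_const, nsmul_eq_mul]
          refine mul_le_mul_of_nonneg_right ?_ (by positivity)
          refine le_trans ?_ (h.div e he)
          unfold tau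
          have he1 := hTm e he
          have : (Icc 1 (2 * D)).filter (fun d => d ∣ e) ⊆ e.divisors := by
            intro d hd
            rw [mem_filter] at hd
            exact Nat.mem_divisors.2 ⟨hd.2, by omega⟩
          exact_mod_cast card_le_card this
      _ = 2 * D * (τ ^ 2 * Z * T.card) := by
          rw [sum_const, nsmul_eq_mul]
          ring
  rw [← hZ]
  calc ∑ m ∈ Icc 1 x, gu (uu c (2 * D) Q) (2 * D) m ^ 2
      ≤ ∑ m ∈ Icc 1 x, (2 * p1 m ^ 2 + 2 * (τ / D) ^ 2 * p2 m ^ 2) := by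
        refine sum_le_sum fun m _ => ?_
        have h1 := pow_le_pow_left₀ (gu_nonneg _ _ _) (hgu m) 2
        refine h1.trans ?_
        have : (p1 m + τ / D * p2 m) ^ 2 ≤ 2 * p1 m ^ 2 + 2 * (τ / D * p2 m) ^ 2 := by
          nlinarith [sq_nonneg (p1 m - τ / D * p2 m)]
        refine this.trans (le_of_eq ?_)
        ring
    _ = 2 * ∑ m ∈ Icc 1 x, p1 m ^ 2 + 2 * (τ / D) ^ 2 * ∑ m ∈ Icc 1 x, p2 m ^ 2 := by
        rw [sum_add_distrib, mul_sum, mul_sum]
    _ ≤ 2 * (τ * Z * (T.card / D)) + 2 * (τ / D) ^ 2 * (2 * D * (τ ^ 2 * Z * T.card)) := by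
        have : 0 ≤ 2 * (τ / D) ^ 2 := by positivity
        have h3 := mul_le_mul_of_nonneg_left hs2 this
        linarith
    _ = (2 * τ + 4 * τ ^ 4) * (Z * (T.card / D)) := by
        field_simp
        ring
    _ ≤ (6 * τ ^ 4) * (Z * (T.card / D)) := by
        have h1 : τ ≤ τ ^ 4 := le_self_pow₀ hτ (by norm_num)
        have h2 : 0 ≤ Z * (T.card / D) := by positivity
        exact mul_le_mul_of_nonneg_right (by linarith) h2
    _ = _ := by ring

end Pool.Agent.W109.C
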