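import Pool.Agent.W109.C.C1
import Pool.Agent.H442R2.KF.Dual

/-!
Maximum over the residues inside, all moduli: the diagonal for sparse coefficients (Gaussian
weight), duality with individual diagonal terms.
-/

set_option autoImplicit false

namespace Pool.Agent.W109.C

open Finset
open Pool.Agent.H442R2.KF

/-- the constant -/
noncomputable def C0 : ℝ := ∑' j : ℕ, Real.exp (1 - j) * ((j : ℝ) + 2) ^ 4

lemma C0_nonneg : 0 ≤ C0 := tsum_nonneg (fun j => by positivity)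

lemma transfer (N : ℕ) (hN : 3 ≤ N) (a : ℤ) (ha0 : 0 ≤ a) (haN : a ≤ N) (g : ℕ → ℝ)
    (hg : ∀ m, 0 ≤ g m) (hg0 : g 0 = 0) (B : ℝ) (hB : 0 ≤ B)
    (hblock : ∀ j : ℕ, ∑ m ∈ Icc 1 ((j + 1) * N), g m ≤ ((j : ℝ) + 2) ^ 4 * B) (S : Finset ℤ) :
    ∑ n ∈ S, Wt N n * g (n - a).natAbs ≤ 2 * C0 * B := by
  classical
  have hN0 : 0 < N := by omega
  obtain ⟨J, hJ⟩ : ∃ J : ℕ, ∀ n ∈ S, (n - a).natAbs / N < J := by
    refine ⟨(S.sup (fun n => (n - a).natAbs / N)) + 1, fun n hn => ?_⟩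
    have := Finset.le_sup (f := fun n : ℤ => (n - a).natAbs / N) hn
    omega
  have e1 := Finset.sum_fiberwise_of_maps_to (s := S) (t := range J)
    (g := fun n : ℤ => (n - a).natAbs / N) (fun n hn => Finset.mem_range.2 (hJ n hn))
    (fun n => Wt N n * g (n - a).natAbs)
  rw [← e1]
  calc ∑ j ∈ range J, ∑ n ∈ S with (n - a).natAbs / N = j,
        Wt N n * g (n - a).natAbs
      ≤ ∑ j ∈ range J, (Real.exp (1 - j) * ((j : ℝ) + 2) ^ 4) * (2 * B) := by
        apply Finset.sum_le_sum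
        intro j _
        calc ∑ n ∈ S with (n - a).natAbs / N = j, Wt N n * g (n - a).natAbs
            ≤ ∑ n ∈ S with (n - a).natAbs / N = j,
                Real.exp (1 - j) * g (n - a).natAbs := by
              apply Finset.sum_le_sum
              intro n hn
              have hj := (Finset.mem_filter.1 hn).2
              exact mul_le_mul_of_nonneg_right (TaskP.Wt_le N hN0 a n ha0 haN j hj.symm) (hg _)
          _ = Real.exp (1 - j) * ∑ n ∈ S with (n - a).natAbs / N = j,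
                g (n - a).natAbs := by rw [Finset.mul_sum]
          _ ≤ Real.exp (1 - j) * (2 * (((j : ℝ) + 2) ^ 4 * B)) := by
              apply mul_le_mul_of_nonneg_left _ (Real.exp_pos _).le
              refine (TaskP.sum_fold g hg hg0 a ((j + 1) * N) _ ?_).trans ?_
              · intro n hn
                have hj := (Finset.mem_filter.1 hn).2
                have := Nat.lt_mul_of_div_lt (show (n - a).natAbs / N < j + 1 by omega) hN0
                exact this.le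
              · have := hblock j
                linarith
          _ = _ := by ring
    _ = (∑ j ∈ range J, Real.exp (1 - j) * ((j : ℝ) + 2) ^ 4) * (2 * B) := by
        rw [Finset.sum_mul]
    _ ≤ C0 * (2 * B) := by
        apply mul_le_mul_of_nonneg_right _ (by positivity)
        exact TaskP.summ_w.sum_le_tsum _ (fun j _ => by positivity)
    _ = _ := by ring

lemma rr_sq_le (u : ℕ → ℝ) (X : ℕ) (a n : ℤ) :
    rr u X a n * rr u X a n ≤ if (n - a).natAbs = 0 then 0 else gu u X (n - a).natAbs ^ 2 := by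
  unfold rr
  split_ifs with h1 h2 h2
  · simp
  · rw [mul_zero]
    exact sq_nonneg _
  · exfalso
    rw [Int.natAbs_eq_zero] at h2
    omega
  · have h3 : |rho u X a n| ≤ gu u X (n - a).natAbs := by
      unfold rho gu
      refine (abs_sum_le_sum_abs _ _).trans (le_of_eq ?_)
      refine sum_congr ?_ fun _ _ => rfl
      ext d
      rw [mem_filter, mem_filter]
      refine and_congr_right fun _ => ?_
      exact Int.natCast_dvd
    calc rho u X a n * rho u X a n = |rho u X a n| ^ 2 := by rw [sq_abs]; ring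
      _ ≤ _ := pow_le_pow_left₀ (abs_nonneg _) h3 2

/-- the diagonal for sparse coefficients -/
theorem diag_sp {N D : ℕ} {T : Finset ℕ} {τ : ℝ} {c : ℕ → ℝ} (hN : 3 ≤ N) (h : Sp D T τ c)
    (hD : 1 ≤ D) (hτ : 1 ≤ τ) (Q : ℕ) (a : ℤ) (ha0 : 0 ≤ a) (haN : a ≤ N) :
    ∑' n : ℤ, Wt N n * (rr (uu c (2 * D) Q) (2 * D) a n * rr (uu c (2 * D) Q) (2 * D) a n) ≤
      12 * C0 * (N * Real.log N * τ ^ 4 * (T.card / D)) := by
  obtain ⟨u, hu⟩ : ∃ u, u = uu c (2 * D) Q := ⟨_, rfl⟩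
  have hNr : (0 : ℝ) < N := by positivity
  have hl : 1 ≤ Real.log N := by
    rw [Real.le_log_iff_exp_le hNr]
    have : (3 : ℝ) ≤ N := by exact_mod_cast hN
    linarith [Real.exp_one_lt_d9]
  have hC := C0_nonneg
  obtain ⟨t, ht⟩ : ∃ t : ℝ, t = τ ^ 4 * (T.card / D) := ⟨_, rfl⟩
  have ht0 : 0 ≤ t := by rw [ht]; positivity
  have hB : 0 ≤ 6 * (N * Real.log N) * t := by positivity
  have hblock : ∀ j : ℕ, ∑ m ∈ Icc 1 ((j + 1) * N),
      (if m = 0 then 0 else gu u (2 * D) m ^ 2) ≤ ((j : ℝ) + 2) ^ 4 * (6 * (N * Real.log N) * t) := by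
    intro j
    have h1 : ∑ m ∈ Icc 1 ((j + 1) * N), (if m = 0 then 0 else gu u (2 * D) m ^ 2) =
        ∑ m ∈ Icc 1 ((j + 1) * N), gu u (2 * D) m ^ 2 := by
      refine sum_congr rfl fun m hm => ?_
      rw [mem_Icc] at hm
      rw [if_neg (by omega)]
    rw [h1, hu]
    refine (gu_sq h hD hτ Q _).trans ?_
    have h2 : Real.log (((j + 1) * N : ℕ) : ℝ) = Real.log ((j : ℝ) + 1) + Real.log N := by
      push_cast
      rw [Real.log_mul (by positivity) (by positivity)]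
    have h3 : Real.log ((j : ℝ) + 1) ≤ j := by
      have := Real.log_le_sub_one_of_pos (show (0 : ℝ) < (j : ℝ) + 1 by positivity)
      linarith
    have hj0 : (0 : ℝ) ≤ j := Nat.cast_nonneg j
    have h4 : 1 + Real.log (((j + 1) * N : ℕ) : ℝ) ≤ ((j : ℝ) + 2) * Real.log N := by
      rw [h2]; nlinarith
    calc 6 * ((((j + 1) * N : ℕ) : ℝ) * (1 + Real.log (((j + 1) * N : ℕ) : ℝ))) * τ ^ 4 *
          (T.card / D) = 6 * ((((j + 1) * N : ℕ) : ℝ) *
            (1 + Real.log (((j + 1) * N : ℕ) : ℝ))) * t := by rw [ht]; ring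
      _ ≤ 6 * ((((j + 1) * N : ℕ) : ℝ) * (((j : ℝ) + 2) * Real.log N)) * t := by
          gcongr
      _ = ((j : ℝ) + 1) * ((j : ℝ) + 2) * (6 * (N * Real.log N) * t) := by
          push_cast; ring
      _ ≤ ((j : ℝ) + 2) ^ 4 * (6 * (N * Real.log N) * t) := by
          refine mul_le_mul_of_nonneg_right ?_ hB
          have h5 : ((j : ℝ) + 1) * ((j : ℝ) + 2) ≤ ((j : ℝ) + 2) ^ 2 := by nlinarith
          have h6 : (1 : ℝ) ≤ ((j : ℝ) + 2) ^ 2 := by nlinarith
          calc ((j : ℝ) + 1) * ((j : ℝ) + 2) ≤ ((j : ℝ) + 2) ^ 2 := h5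
            _ ≤ ((j : ℝ) + 2) ^ 2 * ((j : ℝ) + 2) ^ 2 := le_mul_of_one_le_right (by positivity) h6
            _ = _ := by ring
  refine tsum_le_of_sum_le' (by positivity) (fun S => ?_)
  rw [← hu]
  calc ∑ n ∈ S, Wt N n * (rr u (2 * D) a n * rr u (2 * D) a n)
      ≤ ∑ n ∈ S, Wt N n * (if (n - a).natAbs = 0 then 0 else gu u (2 * D) (n - a).natAbs ^ 2) :=
        sum_le_sum fun n _ => mul_le_mul_of_nonneg_left (rr_sq_le u (2 * D) a n) (Real.exp_pos _).le
    _ ≤ 2 * C0 * (6 * (N * Real.log N) * t) :=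
        transfer N hN a ha0 haN (fun m => if m = 0 then 0 else gu u (2 * D) m ^ 2)
          (fun m => by
            split_ifs
            · exact le_refl _
            · exact sq_nonneg _) (by simp) _ hB hblock S
    _ = _ := by rw [ht]; ring

/-- duality, with individual bounds for the diagonal -/
theorem dualS (N : ℕ) (hN : 1 ≤ N) (A : Finset ℕ) (r : ℕ → ℤ → ℝ)
    (hs : ∀ a ∈ A, ∀ a' ∈ A, Summable (fun n : ℤ => Wt N n * (r a n * r a' n)))
    (G : ℕ → ℝ) (O : ℝ) (hG : ∀ a ∈ A, ∑' n : ℤ, Wt N n * (r a n * r a n) ≤ G a) (hO0 : 0 ≤ O)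
    (hO : ∀ a ∈ A, ∀ a' ∈ A, a ≠ a' → ∑' n : ℤ, Wt N n * (r a n * r a' n) ≤ O) :
    (∑ a ∈ A, ∑ p ∈ (Icc 1 N).filter Nat.Prime, r a p) ^ 2 ≤
      25 * N * (∑ a ∈ A, G a + (A.card : ℝ) ^ 2 * O) := by
  classical
  set S := (Icc 1 N).filter Nat.Prime with hS
  have hcard : (S.card : ℝ) ≤ N := by
    have h1 : S.card ≤ (Icc 1 N).card := card_filter_le _ _
    rw [Nat.card_Icc] at h1
    exact_mod_cast (by omega : S.card ≤ N)
  set F : ℤ → ℝ := fun n => ∑ a ∈ A, r a n with hF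
  have hswap : ∑ a ∈ A, ∑ p ∈ S, r a p = ∑ p ∈ S, F p := by
    rw [sum_comm]
  have hexp : ∀ n : ℤ, Wt N n * F n ^ 2 = ∑ a ∈ A, ∑ a' ∈ A, Wt N n * (r a n * r a' n) := by
    intro n
    rw [hF, sq, sum_mul_sum, mul_sum]
    refine sum_congr rfl fun a _ => ?_
    rw [mul_sum]
  have hsumm : Summable (fun n : ℤ => Wt N n * F n ^ 2) := by
    have : (fun n : ℤ => Wt N n * F n ^ 2) =
        fun n => ∑ a ∈ A, ∑ a' ∈ A, Wt N n * (r a n * r a' n) := funext hexp
    rw [this]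
    exact summable_sum fun a ha => summable_sum fun a' ha' => hs a ha a' ha'
  have htsum : ∑' n : ℤ, Wt N n * F n ^ 2 =
      ∑ a ∈ A, ∑ a' ∈ A, ∑' n : ℤ, Wt N n * (r a n * r a' n) := by
    rw [tsum_congr hexp, Summable.tsum_finsetSum
      (fun a ha => summable_sum fun a' ha' => hs a ha a' ha')]
    refine sum_congr rfl fun a ha => ?_
    rw [Summable.tsum_finsetSum (fun a' ha' => hs a ha a' ha')]
  have hbound : ∑' n : ℤ, Wt N n * F n ^ 2 ≤ ∑ a ∈ A, G a + (A.card : ℝ) ^ 2 * O := by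
    rw [htsum]
    calc ∑ a ∈ A, ∑ a' ∈ A, ∑' n : ℤ, Wt N n * (r a n * r a' n)
        ≤ ∑ a ∈ A, ∑ a' ∈ A, ((if a = a' then G a else 0) + O) := by
          refine sum_le_sum fun a ha => sum_le_sum fun a' ha' => ?_
          by_cases h : a = a'
          · subst h
            rw [if_pos rfl]
            linarith [hG a ha]
          · rw [if_neg h]
            linarith [hO a ha a' ha' h]
      _ = ∑ a ∈ A, G a + (A.card : ℝ) ^ 2 * O := by
          have h1 : ∀ a ∈ A, ∑ a' ∈ A, ((if a = a' then G a else 0) + O) = G a + A.card * O := by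
            intro a ha
            rw [sum_add_distrib, sum_ite_eq, if_pos ha, sum_const, nsmul_eq_mul]
          rw [sum_congr rfl h1, sum_add_distrib, sum_const, nsmul_eq_mul]
          ring
  have hfin : ∑ p ∈ S, Wt N (p : ℤ) * F p ^ 2 ≤ ∑' n : ℤ, Wt N n * F n ^ 2 := by
    have h1 : ∑ p ∈ S, Wt N (p : ℤ) * F p ^ 2 =
        ∑ n ∈ S.map ⟨fun p : ℕ => (p : ℤ), Nat.cast_injective⟩, Wt N n * F n ^ 2 := by
      rw [sum_map]; rfl
    rw [h1]
    exact hsumm.sum_le_tsum _ fun n _ => mul_nonneg (TaskR1.Wt_nonneg N n) (sq_nonneg _)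
  have hsq : ∑ p ∈ S, F p ^ 2 ≤ 25 * ∑ p ∈ S, Wt N (p : ℤ) * F p ^ 2 := by
    rw [mul_sum]
    refine sum_le_sum fun p hp => ?_
    have hpN : p ≤ N := (mem_Icc.1 (mem_filter.1 hp).1).2
    have := TaskR1.one_le_Wt N hN p hpN
    nlinarith [sq_nonneg (F p)]
  have hN0 : (0 : ℝ) ≤ N := Nat.cast_nonneg _
  rw [hswap]
  calc (∑ p ∈ S, F p) ^ 2 ≤ S.card * ∑ p ∈ S, F p ^ 2 := sq_sum_le_card_mul_sum_sq
    _ ≤ N * ∑ p ∈ S, F p ^ 2 := by
        have : 0 ≤ ∑ p ∈ S, F (p : ℤ) ^ 2 := sum_nonneg fun p _ => sq_nonneg _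
        gcongr
    _ ≤ N * (25 * (∑ a ∈ A, G a + (A.card : ℝ) ^ 2 * O)) := by
        gcongr
        linarith
    _ = 25 * N * (∑ a ∈ A, G a + (A.card : ℝ) ^ 2 * O) := by ring

end Pool.Agent.W109.C
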