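import Pool.Agent.W109.C.C2
import Pool.Agent.H442R2.KF.Pri

/-!
Maximum over the residues inside, all moduli: the prime side for sparse coefficients.
-/

set_option autoImplicit false

namespace Pool.Agent.W109.C

open Finset
open Pool.Agent.H442R2.KF

/-- weighted divisor sums over `T` -/
lemma sum_nT (T : Finset ℕ) (S : Finset ℕ) (g : ℕ → ℝ) :
    ∑ d ∈ S, g d * nT T d = ∑ e ∈ T, ∑ d ∈ S.filter (fun d => d ∣ e), g d := by
  calc ∑ d ∈ S, g d * nT T d = ∑ d ∈ S, ∑ e ∈ T, (if d ∣ e then g d else 0) := by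
        refine sum_congr rfl fun d _ => ?_
        rw [nT_eq, mul_sum]
        refine sum_congr rfl fun e _ => ?_
        split_ifs <;> simp
    _ = _ := by
        rw [sum_comm]
        refine sum_congr rfl fun e _ => ?_
        rw [sum_filter]

lemma card_div_le {D : ℕ} {T : Finset ℕ} {τ : ℝ} {c : ℕ → ℝ} (h : Sp D T τ c) (S : Finset ℕ)
    (hS : ∀ d ∈ S, 1 ≤ d) (e : ℕ) (he : e ∈ T) :
    ((S.filter (fun d => d ∣ e)).card : ℝ) ≤ τ := by
  refine le_trans ?_ (h.div e he)
  unfold tau
  have h1 := mem_Ioc.1 (h.sub he)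
  have : S.filter (fun d => d ∣ e) ⊆ e.divisors := by
    intro d hd
    rw [mem_filter] at hd
    exact Nat.mem_divisors.2 ⟨hd.2, by omega⟩
  exact_mod_cast card_le_card this

/-- the prime side for sparse coefficients -/
theorem prime_sp : ∃ C : ℝ, 0 < C ∧ ∀ (N D Q : ℕ) (T : Finset ℕ) (τ δ : ℝ) (c : ℕ → ℝ),
    Sp D T τ c → 1 ≤ D → 1 ≤ Q → Q ≤ D → 1 ≤ τ → 0 ≤ δ → ∀ a : ℕ,
    (∀ e ∈ T, Nat.Coprime a e) → (∀ e ∈ T, ∀ d, d ∣ e → d ≤ Q → d * |Er N d a| ≤ δ) →
    |(∑ p ∈ (Icc 1 N).filter Nat.Prime, rr (uu c (2 * D) Q) (2 * D) a p) -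
      ∑ d ∈ T, c d * Er N d a| ≤
      T.card / D * (τ ^ 2 * (2 * D + δ + C * (N / (Q : ℝ) ^ (3 / 4 : ℝ)))) := by
  obtain ⟨C, hC, hinv⟩ := TaskQ.inv_totient_le
  refine ⟨C, hC, ?_⟩
  intro N D Q T τ δ c h hD hQ hQD hτ hδ a hcop herr
  have hD0 : (0 : ℝ) < D := by exact_mod_cast hD
  have hQ0 : (0 : ℝ) < Q := by exact_mod_cast hQ
  have hQD' : (Q : ℝ) ≤ D := by exact_mod_cast hQD
  have hTm : ∀ e ∈ T, D < e ∧ e ≤ 2 * D := fun e he => mem_Ioc.1 (h.sub he)
  obtain ⟨u, hu⟩ : ∃ u, u = uu c (2 * D) Q := ⟨_, rfl⟩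
  have hττ : τ ≤ τ ^ 2 := le_self_pow₀ hτ (by norm_num)
  have hτ2 : 1 ≤ τ ^ 2 := one_le_pow₀ hτ
  have hsubT : T ⊆ Icc 1 (2 * D) := fun e he => by
    have := hTm e he
    rw [mem_Icc]
    omega
  -- (1) from rr to rho
  have s1 : |(∑ p ∈ (Icc 1 N).filter Nat.Prime, rr u (2 * D) a p) -
      ∑ p ∈ (Icc 1 N).filter Nat.Prime, rho u (2 * D) a p| ≤
        T.card / D * (τ ^ 2 * (2 * D)) := by
    have e1 : (∑ p ∈ (Icc 1 N).filter Nat.Prime, rr u (2 * D) a p) -
        ∑ p ∈ (Icc 1 N).filter Nat.Prime, rho u (2 * D) a p =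
        ∑ p ∈ (Icc 1 N).filter Nat.Prime, if p = a then - rho u (2 * D) a a else 0 := by
      rw [← sum_sub_distrib]
      refine sum_congr rfl fun p _ => ?_
      unfold rr
      by_cases hp : p = a
      · subst hp; simp
      · have : (p : ℤ) ≠ a := by exact_mod_cast hp
        simp [hp, this]
    rw [e1, sum_ite_eq']
    have hsumu : ∑ d ∈ Icc 1 (2 * D), |u d| ≤ T.card / D * (τ ^ 2 * (2 * D)) := by
      calc ∑ d ∈ Icc 1 (2 * D), |u d|
          ≤ ∑ d ∈ Icc 1 (2 * D), (|c d| + |ww c (2 * D) Q d|) := by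
            refine sum_le_sum fun d _ => ?_
            rw [hu]
            unfold uu
            exact abs_sub _ _
        _ = ∑ d ∈ Icc 1 (2 * D), |c d| + ∑ d ∈ Icc 1 (2 * D), |ww c (2 * D) Q d| :=
            sum_add_distrib
        _ ≤ T.card + τ / D * (Q * (τ * T.card)) := by
            refine add_le_add ?_ ?_
            · rw [← sum_subset hsubT]
              · calc ∑ e ∈ T, |c e| ≤ ∑ e ∈ T, (1 : ℝ) := sum_le_sum fun e _ => h.bd e
                  _ = _ := by simp
              · intro e _ hn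
                rw [h.supp e hn, abs_zero]
            · calc ∑ d ∈ Icc 1 (2 * D), |ww c (2 * D) Q d|
                  = ∑ d ∈ (Icc 1 (2 * D)).filter (fun d => d ≤ Q), |ww c (2 * D) Q d| := by
                    rw [sum_filter]
                    refine sum_congr rfl fun d _ => ?_
                    split_ifs with hd
                    · rfl
                    · rw [ww_zero c (2 * D) Q d (by omega), abs_zero]
                _ ≤ ∑ d ∈ (Icc 1 (2 * D)).filter (fun d => d ≤ Q), τ / D * (d * nT T d) :=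
                    sum_le_sum fun d _ => ww_sp h hD Q d
                _ = τ / D * ∑ e ∈ T, ∑ d ∈ ((Icc 1 (2 * D)).filter (fun d => d ≤ Q)).filter
                      (fun d => d ∣ e), (d : ℝ) := by
                    rw [← mul_sum, sum_nT]
                _ ≤ τ / D * ∑ e ∈ T, Q * τ := by
                    refine mul_le_mul_of_nonneg_left ?_ (by positivity)
                    refine sum_le_sum fun e he => ?_
                    calc ∑ d ∈ ((Icc 1 (2 * D)).filter (fun d => d ≤ Q)).filter
                          (fun d => d ∣ e), (d : ℝ)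
                        ≤ ∑ d ∈ ((Icc 1 (2 * D)).filter (fun d => d ≤ Q)).filter
                          (fun d => d ∣ e), (Q : ℝ) := by
                          refine sum_le_sum fun d hd => ?_
                          rw [mem_filter, mem_filter] at hd
                          exact_mod_cast hd.1.2
                      _ = Q * ((((Icc 1 (2 * D)).filter (fun d => d ≤ Q)).filter
                          (fun d => d ∣ e)).card : ℝ) := by
                          rw [sum_const, nsmul_eq_mul, mul_comm]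
                      _ ≤ Q * τ := by
                          refine mul_le_mul_of_nonneg_left ?_ hQ0.le
                          refine card_div_le h _ ?_ e he
                          intro d hd
                          rw [mem_filter, mem_Icc] at hd
                          exact hd.1.1
                _ = _ := by
                    rw [sum_const, nsmul_eq_mul]
                    ring
        _ = T.card / D * (D + τ ^ 2 * Q) := by
            field_simp
        _ ≤ T.card / D * (τ ^ 2 * (2 * D)) := by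
            refine mul_le_mul_of_nonneg_left ?_ (by positivity)
            nlinarith
    have e2 : |rho u (2 * D) a a| ≤ T.card / D * (τ ^ 2 * (2 * D)) := by
      refine le_trans ?_ hsumu
      unfold rho
      refine (abs_sum_le_sum_abs _ _).trans ?_
      exact sum_le_sum_of_subset_of_nonneg (filter_subset _ _) fun _ _ _ => abs_nonneg _
    split_ifs
    · rw [abs_neg]; exact e2
    · rw [abs_zero]; positivity
  -- (2) the sum over the moduli
  have s2 : ∑ p ∈ (Icc 1 N).filter Nat.Prime, rho u (2 * D) a p =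
      ∑ d ∈ T, c d * Er N d a - ∑ d ∈ Icc 1 (2 * D), ww c (2 * D) Q d * Er N d a +
        piN N * ∑ d ∈ Icc 1 (2 * D), u d / Nat.totient d := by
    rw [TaskQ.sum_primes, mul_sum]
    have e1 : ∑ d ∈ T, c d * Er N d a = ∑ d ∈ Icc 1 (2 * D), c d * Er N d a := by
      refine sum_subset hsubT ?_
      intro d _ hd
      rw [h.supp d hd, zero_mul]
    rw [e1, ← sum_sub_distrib, ← sum_add_distrib]
    refine sum_congr rfl fun d _ => ?_
    rw [hu]
    unfold uu Er
    ring
  -- (3) the small moduli
  have s3 : |∑ d ∈ Icc 1 (2 * D), ww c (2 * D) Q d * Er N d a| ≤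
      T.card / D * (τ ^ 2 * δ) := by
    calc |∑ d ∈ Icc 1 (2 * D), ww c (2 * D) Q d * Er N d a|
        ≤ ∑ d ∈ Icc 1 (2 * D), |ww c (2 * D) Q d * Er N d a| := abs_sum_le_sum_abs _ _
      _ = ∑ d ∈ (Icc 1 (2 * D)).filter (fun d => d ≤ Q), |ww c (2 * D) Q d * Er N d a| := by
          rw [sum_filter]
          refine sum_congr rfl fun d _ => ?_
          split_ifs with hd
          · rfl
          · rw [ww_zero c (2 * D) Q d (by omega), zero_mul, abs_zero]
      _ ≤ ∑ d ∈ (Icc 1 (2 * D)).filter (fun d => d ≤ Q), τ / D * ((d * |Er N d a|) * nT T d) := by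
          refine sum_le_sum fun d _ => ?_
          rw [abs_mul]
          calc |ww c (2 * D) Q d| * |Er N d a| ≤ τ / D * (d * nT T d) * |Er N d a| :=
                mul_le_mul_of_nonneg_right (ww_sp h hD Q d) (abs_nonneg _)
            _ = _ := by ring
      _ = τ / D * ∑ e ∈ T, ∑ d ∈ ((Icc 1 (2 * D)).filter (fun d => d ≤ Q)).filter
            (fun d => d ∣ e), d * |Er N d a| := by
          rw [← mul_sum, sum_nT T _ (fun d => (d : ℝ) * |Er N d a|)]
      _ ≤ τ / D * ∑ e ∈ T, τ * δ := by
          refine mul_le_mul_of_nonneg_left ?_ (by positivity)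
          refine sum_le_sum fun e he => ?_
          calc ∑ d ∈ ((Icc 1 (2 * D)).filter (fun d => d ≤ Q)).filter
                (fun d => d ∣ e), d * |Er N d a|
              ≤ ∑ d ∈ ((Icc 1 (2 * D)).filter (fun d => d ≤ Q)).filter
                (fun d => d ∣ e), δ := by
                refine sum_le_sum fun d hd => ?_
                rw [mem_filter, mem_filter] at hd
                exact herr e he d hd.2 hd.1.2
            _ = ((((Icc 1 (2 * D)).filter (fun d => d ≤ Q)).filter
                (fun d => d ∣ e)).card : ℝ) * δ := by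
                rw [sum_const, nsmul_eq_mul]
            _ ≤ τ * δ := by
                refine mul_le_mul_of_nonneg_right ?_ hδ
                refine card_div_le h _ ?_ e he
                intro d hd
                rw [mem_filter, mem_Icc] at hd
                exact hd.1.1
      _ = _ := by
          rw [sum_const, nsmul_eq_mul]
          ring
  -- (4) the main terms
  have s4 : |(piN N : ℝ) * ∑ d ∈ Icc 1 (2 * D), u d / Nat.totient d| ≤
      T.card / D * (τ ^ 2 * (C * (N / (Q : ℝ) ^ (3 / 4 : ℝ)))) := by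
    rw [abs_mul, abs_of_nonneg (by positivity : (0 : ℝ) ≤ (piN N : ℝ))]
    have g1 : (piN N : ℝ) ≤ N := by
      unfold piN
      have := card_filter_le (Icc 1 N) (fun p : ℕ => p.Prime)
      rw [Nat.card_Icc, Nat.add_sub_cancel] at this
      exact_mod_cast this
    have hQp : 0 < (Q : ℝ) ^ (3 / 4 : ℝ) := Real.rpow_pos_of_pos hQ0 _
    have g2 : |∑ d ∈ Icc 1 (2 * D), u d / Nat.totient d| ≤
        T.card / D * (τ * (C / (Q : ℝ) ^ (3 / 4 : ℝ))) := by
      rw [TaskQ.sum_div_totient]
      calc |∑ q ∈ (Icc 1 (2 * D)).filter Squarefree, (1 / (Nat.totient q : ℝ)) * uh u (2 * D) q|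
          ≤ ∑ q ∈ (Icc 1 (2 * D)).filter Squarefree,
            |(1 / (Nat.totient q : ℝ)) * uh u (2 * D) q| := abs_sum_le_sum_abs _ _
        _ ≤ ∑ q ∈ (Icc 1 (2 * D)).filter Squarefree,
            (C / (Q : ℝ) ^ (3 / 4 : ℝ)) * (1 / D) * nT T q := by
            refine sum_le_sum fun q hq => ?_
            rw [mem_filter, mem_Icc] at hq
            rw [hu, uh_uu c (2 * D) Q q hq.1.1 (by omega)]
            have hn := nT_nonneg T q
            split_ifs with hqQ
            · rw [mul_zero, abs_zero]; positivity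
            · push Not at hqQ
              have hq0 : (0 : ℝ) < q := by exact_mod_cast hq.1.1
              rw [abs_mul, abs_of_nonneg (by positivity : (0 : ℝ) ≤ 1 / (Nat.totient q : ℝ))]
              have h1 := hinv q hq.1.1
              have h2 := uh_sp h hD q
              have h3 : C * (q : ℝ) ^ (1 / 4 : ℝ) / q = C / (q : ℝ) ^ (3 / 4 : ℝ) := by
                have e1 : (q : ℝ) = (q : ℝ) ^ (1 / 4 : ℝ) * (q : ℝ) ^ (3 / 4 : ℝ) := by
                  rw [← Real.rpow_add hq0]; norm_num
                have e2 : (q : ℝ) ^ (1 / 4 : ℝ) ≠ 0 := (Real.rpow_pos_of_pos hq0 _).ne'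
                have e3 : (q : ℝ) ^ (3 / 4 : ℝ) ≠ 0 := (Real.rpow_pos_of_pos hq0 _).ne'
                rw [div_eq_div_iff hq0.ne' e3]
                calc C * (q : ℝ) ^ (1 / 4 : ℝ) * (q : ℝ) ^ (3 / 4 : ℝ)
                    = C * ((q : ℝ) ^ (1 / 4 : ℝ) * (q : ℝ) ^ (3 / 4 : ℝ)) := by ring
                  _ = C * q := by rw [← e1]
              rw [h3] at h1
              have h4 : C / (q : ℝ) ^ (3 / 4 : ℝ) ≤ C / (Q : ℝ) ^ (3 / 4 : ℝ) := by
                refine div_le_div_of_nonneg_left hC.le hQp ?_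
                exact Real.rpow_le_rpow hQ0.le (by exact_mod_cast hqQ.le) (by norm_num)
              calc (1 / (Nat.totient q : ℝ)) * |uh c (2 * D) q|
                  ≤ (C / (Q : ℝ) ^ (3 / 4 : ℝ)) * (1 / D * nT T q) :=
                    mul_le_mul (h1.trans h4) h2 (abs_nonneg _) (by positivity)
                _ = _ := by ring
        _ = ∑ e ∈ T, ∑ q ∈ ((Icc 1 (2 * D)).filter Squarefree).filter (fun q => q ∣ e),
            (C / (Q : ℝ) ^ (3 / 4 : ℝ)) * (1 / D) := by
            rw [sum_nT T _ (fun _ => (C / (Q : ℝ) ^ (3 / 4 : ℝ)) * (1 / D))]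
        _ ≤ ∑ e ∈ T, τ * ((C / (Q : ℝ) ^ (3 / 4 : ℝ)) * (1 / D)) := by
            refine sum_le_sum fun e he => ?_
            rw [sum_const, nsmul_eq_mul]
            refine mul_le_mul_of_nonneg_right ?_ (by positivity)
            refine card_div_le h _ ?_ e he
            intro d hd
            rw [mem_filter, mem_Icc] at hd
            exact hd.1.1
        _ = _ := by
            rw [sum_const, nsmul_eq_mul]
            ring
    calc (piN N : ℝ) * |∑ d ∈ Icc 1 (2 * D), u d / Nat.totient d|
        ≤ N * (T.card / D * (τ * (C / (Q : ℝ) ^ (3 / 4 : ℝ)))) :=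
          mul_le_mul g1 g2 (abs_nonneg _) (Nat.cast_nonneg _)
      _ = T.card / D * (τ * (C * (N / (Q : ℝ) ^ (3 / 4 : ℝ)))) := by ring
      _ ≤ _ := by
          refine mul_le_mul_of_nonneg_left ?_ (by positivity)
          exact mul_le_mul_of_nonneg_right hττ (by positivity)
  rw [← hu]
  have e5 : (∑ p ∈ (Icc 1 N).filter Nat.Prime, rr u (2 * D) a p) - ∑ d ∈ T, c d * Er N d a =
      ((∑ p ∈ (Icc 1 N).filter Nat.Prime, rr u (2 * D) a p) -
        ∑ p ∈ (Icc 1 N).filter Nat.Prime, rho u (2 * D) a p) +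
      (- (∑ d ∈ Icc 1 (2 * D), ww c (2 * D) Q d * Er N d a) +
        piN N * ∑ d ∈ Icc 1 (2 * D), u d / Nat.totient d) := by
    rw [s2]; ring
  rw [e5]
  refine (abs_add_le _ _).trans ((add_le_add le_rfl (abs_add_le _ _)).trans ?_)
  rw [abs_neg]
  have : (T.card : ℝ) / D * (τ ^ 2 * (2 * D + δ + C * (N / (Q : ℝ) ^ (3 / 4 : ℝ)))) =
      T.card / D * (τ ^ 2 * (2 * D)) + (T.card / D * (τ ^ 2 * δ) +
        T.card / D * (τ ^ 2 * (C * (N / (Q : ℝ) ^ (3 / 4 : ℝ))))) := by ring
  rw [this]
  exact add_le_add s1 (add_le_add s3 s4)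

end Pool.Agent.W109.C
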