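import Pool.Agent.W109.C.C4

/-!
Maximum over the residues inside, all moduli: the bad moduli, assembly.
-/

set_option autoImplicit false

namespace Pool.Agent.W109.C

open Finset
open Pool.Agent.H442R2.KF

lemma sum_inv_mul (k x : ℕ) (hk : 1 ≤ k) :
    ∑ m ∈ (Icc 1 x).filter (fun m => k ∣ m), 1 / (m : ℝ) ≤ 1 / k * (1 + Real.log x) := by
  have hk0 : (0 : ℝ) < k := by exact_mod_cast hk
  have h1 : (Icc 1 x).filter (fun m => k ∣ m) = (Icc 1 (x / k)).image (fun j => k * j) := by
    ext m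
    rw [mem_filter, mem_Icc, mem_image]
    constructor
    · rintro ⟨⟨h1, h2⟩, j, rfl⟩
      refine ⟨j, ?_, rfl⟩
      rw [mem_Icc]
      refine ⟨?_, ?_⟩
      · rcases Nat.eq_zero_or_pos j with rfl | hj
        · omega
        · exact hj
      · rw [Nat.le_div_iff_mul_le (by omega), mul_comm]
        exact h2
    · rintro ⟨j, hj, rfl⟩
      rw [mem_Icc] at hj
      refine ⟨⟨Nat.mul_pos (by omega) (by omega), ?_⟩, Dvd.intro _ rfl⟩
      calc k * j ≤ k * (x / k) := Nat.mul_le_mul_left _ hj.2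
        _ ≤ x := Nat.mul_div_le _ _
  rw [h1, sum_image (fun j _ j' _ hjj => Nat.eq_of_mul_eq_mul_left (by omega) hjj)]
  have hlog : Real.log ((x / k : ℕ) : ℝ) ≤ Real.log x := by
    rcases Nat.eq_zero_or_pos (x / k) with h0 | h0
    · rw [h0, Nat.cast_zero, Real.log_zero]
      exact Real.log_natCast_nonneg x
    · apply Real.log_le_log (by exact_mod_cast h0)
      exact_mod_cast Nat.div_le_self x k
  calc ∑ j ∈ Icc 1 (x / k), 1 / (((k * j : ℕ)) : ℝ) = 1 / k * ∑ j ∈ Icc 1 (x / k), (1 : ℝ) / j := by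
        rw [mul_sum]
        refine sum_congr rfl fun j _ => ?_
        push_cast
        rw [one_div_mul_one_div]
    _ ≤ 1 / k * (1 + Real.log ((x / k : ℕ) : ℝ)) :=
        mul_le_mul_of_nonneg_left (TaskP.harm _) (by positivity)
    _ ≤ _ := mul_le_mul_of_nonneg_left (by linarith) (by positivity)

lemma sum_tau_sq_div (x : ℕ) : ∑ m ∈ Icc 1 x, tau m ^ 2 / m ≤ (1 + Real.log x) ^ 4 := by
  classical
  have hlx : 0 ≤ Real.log (x : ℝ) := Real.log_natCast_nonneg x
  have hH0 : 0 ≤ ∑ i ∈ Icc 1 x, (1 : ℝ) / i := sum_nonneg fun _ _ => by positivity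
  calc ∑ m ∈ Icc 1 x, tau m ^ 2 / m
      ≤ ∑ m ∈ Icc 1 x, ∑ t ∈ Icc 1 x ×ˢ Icc 1 x ×ˢ Icc 1 x,
          (if t.1 * t.2.1 * t.2.2 ∣ m then 1 / (m : ℝ) else 0) := by
        refine sum_le_sum fun m hm => ?_
        have hm0 : (0 : ℝ) < m := by exact_mod_cast (mem_Icc.1 hm).1
        have h1 := TaskP.tau_sq_le x m hm
        rw [card_filter] at h1
        push_cast at h1
        calc tau m ^ 2 / m ≤ (∑ t ∈ Icc 1 x ×ˢ Icc 1 x ×ˢ Icc 1 x,
              (if t.1 * t.2.1 * t.2.2 ∣ m then (1 : ℝ) else 0)) / m :=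
              div_le_div_of_nonneg_right h1 hm0.le
          _ = _ := by
              rw [sum_div]
              refine sum_congr rfl fun t _ => ?_
              split_ifs <;> simp
    _ = ∑ t ∈ Icc 1 x ×ˢ Icc 1 x ×ˢ Icc 1 x,
          ∑ m ∈ (Icc 1 x).filter (fun m => t.1 * t.2.1 * t.2.2 ∣ m), 1 / (m : ℝ) := by
        rw [sum_comm]
        refine sum_congr rfl fun t _ => ?_
        rw [sum_filter]
    _ ≤ ∑ t ∈ Icc 1 x ×ˢ Icc 1 x ×ˢ Icc 1 x,
          (1 + Real.log x) * ((1 / (t.1 : ℝ)) * ((1 / (t.2.1 : ℝ)) * (1 / (t.2.2 : ℝ)))) := by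
        apply Finset.sum_le_sum
        rintro ⟨g, d, e⟩ ht
        simp only [Finset.mem_product, Finset.mem_Icc] at ht
        simp only
        refine (sum_inv_mul (g * d * e) x ?_).trans (le_of_eq ?_)
        · exact Nat.mul_pos (Nat.mul_pos (by omega) (by omega)) (by omega)
        · push_cast
          rw [one_div_mul_one_div, one_div_mul_one_div, mul_assoc (g : ℝ)]
          ring
    _ = (1 + Real.log x) * (∑ i ∈ Icc 1 x, (1 : ℝ) / i) ^ 3 := by
        rw [← Finset.mul_sum, Finset.sum_product]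
        simp only [Finset.sum_product]
        simp only [← Finset.mul_sum, ← Finset.sum_mul]
        ring
    _ ≤ (1 + Real.log x) * (1 + Real.log x) ^ 3 := by
        refine mul_le_mul_of_nonneg_left ?_ (by linarith)
        exact pow_le_pow_left₀ hH0 (TaskP.harm x) 3
    _ = _ := by ring

open Classical in
/-- the small moduli with a large error in some class -/
noncomputable def Bd (N : ℕ) (δ : ℝ) : Finset ℕ :=
  (Icc 1 (QN N)).filter (fun b => ∃ a : ℕ, Nat.Coprime a b ∧ δ < b * |Er N b a|)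

lemma mem_Bd {N : ℕ} {δ : ℝ} {b : ℕ} : b ∈ Bd N δ ↔
    b ∈ Icc 1 (QN N) ∧ ∃ a : ℕ, Nat.Coprime a b ∧ δ < b * |Er N b a| := by
  classical
  unfold Bd
  rw [mem_filter]

/-- the bad moduli are sparse -/
lemma sum_Bd (V' : ℕ) : ∃ C : ℝ, 0 < C ∧ ∀ N : ℕ, 3 ≤ N → ∀ δ : ℝ, 0 < δ →
    ∑ b ∈ Bd N δ, 1 / (b : ℝ) ≤ C * (N / Real.log N ^ V') / δ := by
  classical
  obtain ⟨C, hC, h⟩ := bv (1 / 100) (by norm_num) V'
  refine ⟨C, hC, fun N hN δ hδ => ?_⟩
  obtain ⟨a, ha⟩ : ∃ a : ℕ → ℕ, ∀ b, a b = if hb : b ∈ Bd N δ then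
      Classical.choose (mem_Bd.1 hb).2 else 1 := ⟨_, fun _ => rfl⟩
  have ha1 : ∀ b (hb : b ∈ Bd N δ), Nat.Coprime (a b) b ∧ δ < b * |Er N b (a b)| := by
    intro b hb
    rw [ha, dif_pos hb]
    exact Classical.choose_spec (mem_Bd.1 hb).2
  have ha2 : ∀ b, 1 ≤ b → Nat.Coprime (a b) b := by
    intro b _
    by_cases hb : b ∈ Bd N δ
    · exact (ha1 b hb).1
    · rw [ha, dif_neg hb]
      exact Nat.coprime_one_left b
  have h1 := h N hN a ha2
  rw [le_div_iff₀ hδ, sum_mul]
  refine le_trans ?_ h1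
  calc ∑ b ∈ Bd N δ, 1 / (b : ℝ) * δ ≤ ∑ b ∈ Bd N δ, |Er N b (a b)| := by
        refine sum_le_sum fun b hb => ?_
        have hb1 := mem_Icc.1 (mem_Bd.1 hb).1
        have hb0 : (0 : ℝ) < b := by exact_mod_cast hb1.1
        have h2 := (ha1 b hb).2
        rw [one_div, inv_mul_le_iff₀ hb0]
        exact h2.le
    _ ≤ _ := by
        refine sum_le_sum_of_subset_of_nonneg ?_ fun _ _ _ => abs_nonneg _
        intro b hb
        exact (mem_Bd.1 hb).1

open Classical in
/-- the bad moduli -/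
noncomputable def Bad (N M : ℕ) (τ δ : ℝ) : Finset ℕ :=
  (Icc 1 M).filter (fun e => τ < tau e ∨ ∃ b ∈ Bd N δ, b ∣ e)

lemma mem_Bad {N M : ℕ} {τ δ : ℝ} {e : ℕ} : e ∈ Bad N M τ δ ↔
    e ∈ Icc 1 M ∧ (τ < tau e ∨ ∃ b ∈ Bd N δ, b ∣ e) := by
  unfold Bad
  rw [mem_filter]

lemma inv_phi_le (e : ℕ) (he : 1 ≤ e) : 1 / (Nat.totient e : ℝ) ≤ tau e / e := by
  have h1 := TaskQ.phi_mul_card e he
  have he0 : (0 : ℝ) < e := by exact_mod_cast he
  have hφ : (0 : ℝ) < Nat.totient e := by exact_mod_cast Nat.totient_pos.2 he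
  rw [div_le_div_iff₀ hφ he0, one_mul]
  unfold tau
  have h2 : (e : ℝ) ≤ (Nat.totient e : ℝ) * (e.divisors.card : ℝ) := by exact_mod_cast h1
  linarith

lemma sum_Bad {N M : ℕ} {τ δ : ℝ} (hτ : 0 < τ) :
    ∑ e ∈ Bad N M τ δ, 1 / (Nat.totient e : ℝ) ≤
      (1 + Real.log M) ^ 4 / τ + τ * ((1 + Real.log M) * ∑ b ∈ Bd N δ, 1 / (b : ℝ)) := by
  classical
  have hlM : 0 ≤ Real.log (M : ℝ) := Real.log_natCast_nonneg M
  calc ∑ e ∈ Bad N M τ δ, 1 / (Nat.totient e : ℝ)
      ≤ ∑ e ∈ Icc 1 M, (tau e ^ 2 / e / τ + ∑ b ∈ Bd N δ, (if b ∣ e then τ * (1 / e) else 0)) := by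
        have hnn : ∀ e : ℕ, 0 ≤ tau e ^ 2 / e / τ +
            ∑ b ∈ Bd N δ, (if b ∣ e then τ * (1 / (e : ℝ)) else 0) := by
          intro e
          have : 0 ≤ ∑ b ∈ Bd N δ, (if b ∣ e then τ * (1 / (e : ℝ)) else 0) := by
            refine sum_nonneg fun b _ => ?_
            split_ifs
            · positivity
            · exact le_refl _
          positivity
        have hsub : Bad N M τ δ ⊆ Icc 1 M := fun e he => (mem_Bad.1 he).1
        refine le_trans (sum_le_sum fun e he => ?_)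
          (sum_le_sum_of_subset_of_nonneg hsub fun e _ _ => hnn e)
        have h1 := mem_Bad.1 he
        have he1 := (mem_Icc.1 h1.1).1
        have he0 : (0 : ℝ) < e := by exact_mod_cast he1
        refine (inv_phi_le e he1).trans ?_
        have hsn : 0 ≤ ∑ b ∈ Bd N δ, (if b ∣ e then τ * (1 / (e : ℝ)) else 0) := by
          refine sum_nonneg fun b _ => ?_
          split_ifs
          · positivity
          · exact le_refl _
        by_cases hte : τ < tau e
        · have h2 : tau e / e ≤ tau e ^ 2 / e / τ := by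
            rw [le_div_iff₀ hτ, div_mul_eq_mul_div]
            refine div_le_div_of_nonneg_right ?_ he0.le
            rw [sq]
            exact mul_le_mul_of_nonneg_left hte.le (TaskP.tau_nonneg e)
          linarith
        · push Not at hte
          rcases h1.2 with h2 | ⟨b, hb, hbe⟩
          · linarith
          · have h3 : τ * (1 / (e : ℝ)) ≤ ∑ b ∈ Bd N δ, (if b ∣ e then τ * (1 / (e : ℝ)) else 0) := by
              have h4 := single_le_sum (f := fun b => (if b ∣ e then τ * (1 / (e : ℝ)) else 0))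
                (fun b _ => by
                  split_ifs
                  · positivity
                  · exact le_refl _) hb
              simp only [if_pos hbe] at h4
              exact h4
            have h4 : tau e / e ≤ τ * (1 / (e : ℝ)) := by
              rw [mul_one_div]
              exact div_le_div_of_nonneg_right hte he0.le
            have h5 : 0 ≤ tau e ^ 2 / e / τ := by positivity
            linarith
    _ = (∑ e ∈ Icc 1 M, tau e ^ 2 / e) / τ +
          ∑ b ∈ Bd N δ, τ * ∑ e ∈ (Icc 1 M).filter (fun e => b ∣ e), 1 / (e : ℝ) := by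
        rw [sum_add_distrib, ← sum_div, sum_comm]
        congr 1
        refine sum_congr rfl fun b _ => ?_
        rw [mul_sum, sum_filter]
    _ ≤ (1 + Real.log M) ^ 4 / τ + ∑ b ∈ Bd N δ, τ * (1 / b * (1 + Real.log M)) := by
        refine add_le_add (div_le_div_of_nonneg_right (sum_tau_sq_div M) hτ.le) ?_
        refine sum_le_sum fun b hb => ?_
        refine mul_le_mul_of_nonneg_left (sum_inv_mul b M ?_) hτ.le
        exact (mem_Icc.1 (mem_Bd.1 hb).1).1
    _ = _ := by
        rw [mul_sum, mul_sum]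
        congr 1
        refine sum_congr rfl fun b _ => ?_
        ring

/-- the trivial bound -/
lemma Er_triv (N e a : ℕ) (he1 : 1 ≤ e) (heN : e ≤ N) :
    |Er N e a| ≤ 3 * (N * (1 / (Nat.totient e : ℝ))) := by
  have he0 : (0 : ℝ) < e := by exact_mod_cast he1
  have hφ : (0 : ℝ) < Nat.totient e := by exact_mod_cast Nat.totient_pos.2 he1
  have hφe : (Nat.totient e : ℝ) ≤ e := by exact_mod_cast Nat.totient_le e
  have heN' : (e : ℝ) ≤ N := by exact_mod_cast heN
  have hN0 : (0 : ℝ) < N := by linarith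
  have h1 : (piN N : ℝ) ≤ N := by
    unfold piN
    have := card_filter_le (Icc 1 N) (fun p : ℕ => p.Prime)
    rw [Nat.card_Icc, Nat.add_sub_cancel] at this
    exact_mod_cast this
  have h2 : (piAP N e a : ℝ) ≤ N / e + 1 := by
    have h3 : piAP N e a ≤ N / e + 1 := by
      unfold piAP
      have h4 : (Icc 1 N).filter (fun p : ℕ => p.Prime ∧ p ≡ a [MOD e]) ⊆
          (Ioc 0 N).filter (fun p : ℕ => p ≡ a [MOD e]) := by
        intro p hp
        rw [mem_filter, mem_Icc] at hp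
        rw [mem_filter, mem_Ioc]
        exact ⟨⟨by omega, hp.1.2⟩, hp.2.2⟩
      refine (card_le_card h4).trans ?_
      have h5 := Nat.Ioc_filter_modEq_card 0 N (r := e) (by omega) a
      have h6 : (((Ioc 0 N).filter (fun p : ℕ => p ≡ a [MOD e])).card : ℤ) ≤ (N / e + 1 : ℕ) := by
        rw [h5]
        have hr : (0 : ℚ) < e := by exact_mod_cast he1
        have g1 : ⌊((N : ℚ) - a) / e⌋ - ⌊(((0 : ℕ) : ℚ) - a) / e⌋ ≤ ((N / e + 1 : ℕ) : ℤ) := by
          have g2 : ((N : ℚ) - a) / e = (N : ℚ) / e + (((0 : ℕ) : ℚ) - a) / e := by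
            push_cast
            field_simp
            ring
          have g3 : (⌊(N : ℚ) / e⌋ : ℤ) = ((N / e : ℕ) : ℤ) := by
            rw [← Int.natCast_floor_eq_floor (by positivity), Nat.floor_div_eq_div]
          have g4 := Int.le_floor_add_floor ((N : ℚ) / e) ((((0 : ℕ) : ℚ) - a) / e)
          rw [g2]
          push_cast at g3 g4 ⊢
          omega
        have g5 : 0 ≤ (((N / e + 1 : ℕ) : ℤ)) := by positivity
        exact max_le g1 g5
      exact_mod_cast h6
    calc (piAP N e a : ℝ) ≤ ((N / e + 1 : ℕ) : ℝ) := by exact_mod_cast h3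
      _ = ((N / e : ℕ) : ℝ) + 1 := by push_cast; ring
      _ ≤ N / e + 1 := by
          have : ((N / e : ℕ) : ℝ) ≤ (N : ℝ) / e := Nat.cast_div_le
          linarith
  have h3 : (N : ℝ) / e ≤ N * (1 / (Nat.totient e : ℝ)) := by
    rw [mul_one_div]
    exact div_le_div_of_nonneg_left hN0.le hφ hφe
  have h4 : 1 ≤ N * (1 / (Nat.totient e : ℝ)) := by
    rw [mul_one_div, le_div_iff₀ hφ]
    linarith
  have h5 : (piN N : ℝ) / Nat.totient e ≤ N * (1 / (Nat.totient e : ℝ)) := by
    rw [mul_one_div]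
    exact div_le_div_of_nonneg_right h1 hφ.le
  have h6 : (0 : ℝ) ≤ piAP N e a := Nat.cast_nonneg _
  have h7 : (0 : ℝ) ≤ (piN N : ℝ) / Nat.totient e := by positivity
  unfold Er
  rw [abs_le]
  constructor
  · linarith
  · linarith

end Pool.Agent.W109.C
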