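import Pool.Agent.W109.C.C4

/-!
Maximum over the residues inside, moduli with a property `P`: one dyadic block.
-/

set_option autoImplicit false

namespace Pool.Agent.W109.C

open Finset
open Pool.Agent.H442R2.KF

/-- the correlation bound for coefficients supported on moduli with the property `P` -/
def HCorr (θ : ℝ) (P : ℕ → ℕ → Prop) : Prop := ∃ (η C : ℝ), 0 < η ∧ 0 < C ∧
    ∀ (N D : ℕ), 2 ≤ N → QN N ≤ D → (D : ℝ) ≤ (N : ℝ) ^ θ →
    ∀ (a a' : ℤ), 0 ≤ a → a ≤ N → 0 ≤ a' → a' ≤ N → a ≠ a' →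
    ∀ c c' : ℕ → ℝ, Cof D c → Cof D c' → (∀ d, c d ≠ 0 → P N d) → (∀ d, c' d ≠ 0 → P N d) →
    |∑' n : ℤ, Wt N n * (rr (uu c (2 * D) (QN N)) (2 * D) a n *
      rr (uu c' (2 * D) (QN N)) (2 * D) a' n)| ≤ C * (N : ℝ) ^ (1 - η)

/-- one dyadic block -/
theorem block_gen (θ : ℝ) (hθ : θ < 3 / 4) (P : ℕ → ℕ → Prop) (hPc : HCorr θ P) : ∃ η : ℝ, 0 < η ∧ ∀ (t U : ℕ), ∃ C : ℝ, 0 < C ∧
    ∀ (N D : ℕ), 3 ≤ N → QN N ≤ D → (D : ℝ) ≤ (N : ℝ) ^ θ →
    ∀ A : Finset ℕ, A ⊆ Icc 1 N → (A.card : ℝ) ≤ (N : ℝ) ^ η →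
    ∀ T : ℕ → Finset ℕ, (∀ a ∈ A, T a ⊆ Ioc D (2 * D)) → (∀ a ∈ A, ∀ e ∈ T a, P N e) →
    (∀ a ∈ A, ∀ e ∈ T a, Nat.Coprime a e ∧ tau e ≤ Real.log N ^ t ∧
      (∀ d, d ∣ e → d ≤ QN N → d * |Er N d a| ≤ N / Real.log N ^ (U + 2 * t + 1)) ∧
      N / (D * Real.log N ^ U) ≤ |Er N e a|) →
    ∑ a ∈ A, (((T a).card : ℝ) / D) ≤ C * Real.log N ^ (2 * U + 4 * t + 1) := by
  obtain ⟨η₀, CO, hη₀, hCO, hcorr⟩ := hPc
  obtain ⟨CP, hCP, hprime⟩ := prime_sp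
  refine ⟨η₀ / 4, by positivity, fun t U => ?_⟩
  -- thresholds
  obtain ⟨N0, hN0⟩ := Filter.eventually_atTop.mp
    ((ev_log (2 * t + U) 16 (1 / 4) (by norm_num)).and
      (((Real.tendsto_log_atTop.comp (tendsto_natCast_atTop_atTop (R := ℝ))).eventually_ge_atTop
        (8 : ℝ)).and
      ((ev_log (2 * t + U) (16 * CP) (3 / 400) (by norm_num)).and
        (ev_log (2 * U) (100 * CO) (η₀ / 2) (by positivity)))))
  have hC00 := C0_nonneg
  refine ⟨1200 * C0 + 1 + N0, by positivity, ?_⟩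
  intro N D hN3 hQD hDθ A hA hAc T hTD hTP hT
  have hl := TaskR2b.one_le_log hN3
  have hl0 : 0 < Real.log N := by linarith
  have hN1 : 1 ≤ N := by omega
  have hNr : (3 : ℝ) ≤ N := by exact_mod_cast hN3
  have hNr1 : (1 : ℝ) ≤ N := by linarith
  have hNr0 : (0 : ℝ) < N := by linarith
  obtain ⟨q1, q2, q3⟩ := TaskO.QN_facts N (by omega)
  obtain ⟨Q, hQ⟩ : ∃ Q : ℕ, Q = QN N := ⟨_, rfl⟩
  rw [← hQ] at q1 q2 q3 hQD hT
  have hQr : (1 : ℝ) ≤ Q := by exact_mod_cast q1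
  have hQ0 : (0 : ℝ) < Q := by linarith
  have hD1 : 1 ≤ D := q1.trans hQD
  have hD0 : (0 : ℝ) < D := by exact_mod_cast hD1
  obtain ⟨L, hL⟩ : ∃ L : ℝ, L = Real.log N := ⟨_, rfl⟩
  rw [← hL] at hl hl0 hT ⊢
  have hLB : 1 ≤ L ^ (2 * U + 4 * t + 1) := one_le_pow₀ hl
  obtain ⟨s, hs⟩ : ∃ s : ℝ, s = ∑ a ∈ A, (((T a).card : ℝ) / D) := ⟨_, rfl⟩
  rw [← hs]
  have hs0 : 0 ≤ s := by rw [hs]; exact sum_nonneg fun _ _ => by positivity
  rcases lt_or_ge N N0 with hlt | hge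
  · -- small `N`
    have h1 : s ≤ N := by
      rw [hs]
      calc ∑ a ∈ A, (((T a).card : ℝ) / D) ≤ ∑ a ∈ A, (1 : ℝ) := by
            refine sum_le_sum fun a ha => ?_
            rw [div_le_one hD0]
            have := card_le_card (hTD a ha)
            rw [Nat.card_Ioc] at this
            exact_mod_cast (by omega : (T a).card ≤ D)
        _ = A.card := by simp
        _ ≤ N := by
            have := card_le_card hA
            rw [Nat.card_Icc] at this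
            exact_mod_cast (by omega : A.card ≤ N)
    have h2 : (N : ℝ) ≤ N0 := by exact_mod_cast hlt.le
    calc s ≤ (1200 * C0 + 1 + N0) * 1 := by linarith
      _ ≤ _ := mul_le_mul_of_nonneg_left hLB (by positivity)
  -- large `N`
  obtain ⟨e1, e2, e3, e4⟩ := hN0 N hge
  simp only [Function.comp_apply] at e2
  rw [← hL] at e1 e2 e3 e4
  obtain ⟨c, hc⟩ : ∃ c : ℕ → ℕ → ℝ, ∀ a d, c a d = if d ∈ T a then Real.sign (Er N d a) else 0 :=
    ⟨_, fun _ _ => rfl⟩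
  have hτ1 : 1 ≤ L ^ t := one_le_pow₀ hl
  have hSp : ∀ a ∈ A, Sp D (T a) (L ^ t) (c a) := by
    intro a ha
    refine ⟨fun d => ?_, fun d hd => ?_, hTD a ha, fun d hd => (hT a ha d hd).2.1⟩
    · rw [hc]
      split_ifs
      · exact sign_abs _
      · simp
    · rw [hc, if_neg hd]
  obtain ⟨r, hr⟩ : ∃ r : ℕ → ℤ → ℝ, ∀ a n, r a n = rr (uu (c a) (2 * D) Q) (2 * D) a n :=
    ⟨_, fun _ _ => rfl⟩
  have hcP : ∀ a ∈ A, ∀ d, c a d ≠ 0 → P N d := by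
    intro a ha d hd
    by_contra hcon
    apply hd
    rw [hc, if_neg]
    intro hdT
    exact hcon (hTP a ha d hdT)
  -- the prime side
  have hps : ∀ a ∈ A, ((T a).card : ℝ) / D * (N / (2 * L ^ U)) ≤
      ∑ p ∈ (Icc 1 N).filter Nat.Prime, r a p := by
    intro a ha
    have h1 := hprime N D Q (T a) (L ^ t) (N / L ^ (U + 2 * t + 1)) (c a) (hSp a ha) hD1 q1 hQD hτ1
      (by positivity) a (fun e he => (hT a ha e he).1) (fun e he => (hT a ha e he).2.2.1)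
    have h2 : ∑ d ∈ T a, c a d * Er N d a = ∑ d ∈ T a, |Er N d a| := by
      refine sum_congr rfl fun d hd => ?_
      rw [hc, if_pos hd, TaskR2b.sign_mul]
    have h3 : ((T a).card : ℝ) / D * (N / L ^ U) ≤ ∑ d ∈ T a, |Er N d a| := by
      calc ((T a).card : ℝ) / D * (N / L ^ U) = ∑ d ∈ T a, N / (D * L ^ U) := by
            rw [sum_const, nsmul_eq_mul]
            field_simp
        _ ≤ _ := sum_le_sum fun d hd => (hT a ha d hd).2.2.2
    rw [h2] at h1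
    have h4 : (L ^ t) ^ 2 * (2 * D + N / L ^ (U + 2 * t + 1) + CP * (N / (Q : ℝ) ^ (3 / 4 : ℝ))) ≤
        N / (2 * L ^ U) := by
      have hLt : 0 < L ^ t := by positivity
      have hLU : 0 < L ^ U := by positivity
      have g1 : (L ^ t) ^ 2 * (2 * D) ≤ N / (8 * L ^ U) := by
        rw [le_div_iff₀ (by positivity)]
        have hD34 : (D : ℝ) ≤ (N : ℝ) ^ (3 / 4 : ℝ) := by
          exact hDθ.trans (Real.rpow_le_rpow_of_exponent_le hNr1 hθ.le)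
        have h5 : (N : ℝ) ^ (1 / 4 : ℝ) * (N : ℝ) ^ (3 / 4 : ℝ) = N := by
          rw [← Real.rpow_add hNr0]; norm_num
        calc (L ^ t) ^ 2 * (2 * D) * (8 * L ^ U) = (16 * L ^ (2 * t + U)) * D := by
              rw [pow_add, pow_mul']; ring
          _ ≤ (N : ℝ) ^ (1 / 4 : ℝ) * (N : ℝ) ^ (3 / 4 : ℝ) := by gcongr
          _ = N := h5
      have g2 : (L ^ t) ^ 2 * (N / L ^ (U + 2 * t + 1)) ≤ N / (8 * L ^ U) := by
        have h5 : (L ^ t) ^ 2 * (N / L ^ (U + 2 * t + 1)) = N / (L * L ^ U) := by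
          have : L ^ (U + 2 * t + 1) = (L ^ t) ^ 2 * (L * L ^ U) := by ring
          rw [this]
          field_simp
        rw [h5]
        gcongr
      have g3 : (L ^ t) ^ 2 * (CP * (N / (Q : ℝ) ^ (3 / 4 : ℝ))) ≤ N / (8 * L ^ U) := by
        have hQp : 0 < (Q : ℝ) ^ (3 / 4 : ℝ) := Real.rpow_pos_of_pos hQ0 _
        rw [le_div_iff₀ (by positivity)]
        have h5 : (N : ℝ) ^ (3 / 400 : ℝ) ≤ 2 * (Q : ℝ) ^ (3 / 4 : ℝ) := by
          calc (N : ℝ) ^ (3 / 400 : ℝ) = ((N : ℝ) ^ (1 / 100 : ℝ)) ^ (3 / 4 : ℝ) := by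
                rw [← Real.rpow_mul hNr0.le]; norm_num
            _ ≤ (2 * Q : ℝ) ^ (3 / 4 : ℝ) := Real.rpow_le_rpow (by positivity) q3 (by norm_num)
            _ = (2 : ℝ) ^ (3 / 4 : ℝ) * (Q : ℝ) ^ (3 / 4 : ℝ) :=
                Real.mul_rpow (by norm_num) hQ0.le
            _ ≤ 2 * (Q : ℝ) ^ (3 / 4 : ℝ) := by
                refine mul_le_mul_of_nonneg_right ?_ hQp.le
                calc (2 : ℝ) ^ (3 / 4 : ℝ) ≤ (2 : ℝ) ^ (1 : ℝ) :=
                      Real.rpow_le_rpow_of_exponent_le (by norm_num) (by norm_num)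
                  _ = 2 := Real.rpow_one _
        calc (L ^ t) ^ 2 * (CP * (N / (Q : ℝ) ^ (3 / 4 : ℝ))) * (8 * L ^ U)
            = (16 * CP * L ^ (2 * t + U)) * (N / (2 * (Q : ℝ) ^ (3 / 4 : ℝ))) := by
              rw [pow_add, pow_mul']; field_simp; ring
          _ ≤ (N : ℝ) ^ (3 / 400 : ℝ) * (N / (2 * (Q : ℝ) ^ (3 / 4 : ℝ))) := by gcongr
          _ ≤ (2 * (Q : ℝ) ^ (3 / 4 : ℝ)) * (N / (2 * (Q : ℝ) ^ (3 / 4 : ℝ))) := by gcongr
          _ = N := by field_simp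
      calc (L ^ t) ^ 2 * (2 * D + N / L ^ (U + 2 * t + 1) + CP * (N / (Q : ℝ) ^ (3 / 4 : ℝ)))
          = (L ^ t) ^ 2 * (2 * D) + (L ^ t) ^ 2 * (N / L ^ (U + 2 * t + 1)) +
              (L ^ t) ^ 2 * (CP * (N / (Q : ℝ) ^ (3 / 4 : ℝ))) := by ring
        _ ≤ N / (8 * L ^ U) + N / (8 * L ^ U) + N / (8 * L ^ U) := by linarith
        _ ≤ N / (2 * L ^ U) := by
            have : (N : ℝ) / (2 * L ^ U) = N / (8 * L ^ U) + N / (8 * L ^ U) + N / (8 * L ^ U) +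
                N / (8 * L ^ U) := by field_simp; norm_num
            rw [this]
            have : 0 ≤ (N : ℝ) / (8 * L ^ U) := by positivity
            linarith
    have h5 : ((T a).card : ℝ) / D * ((L ^ t) ^ 2 * (2 * D + N / L ^ (U + 2 * t + 1) +
        CP * (N / (Q : ℝ) ^ (3 / 4 : ℝ)))) ≤ ((T a).card : ℝ) / D * (N / (2 * L ^ U)) :=
      mul_le_mul_of_nonneg_left h4 (by positivity)
    have h6 := (abs_le.mp (h1.trans h5)).1
    have h7 : ((T a).card : ℝ) / D * (N / L ^ U) = ((T a).card : ℝ) / D * (N / (2 * L ^ U)) +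
        ((T a).card : ℝ) / D * (N / (2 * L ^ U)) := by field_simp; norm_num
    have h8 : ∑ p ∈ (Icc 1 N).filter Nat.Prime, r a p =
        ∑ p ∈ (Icc 1 N).filter Nat.Prime, rr (uu (c a) (2 * D) Q) (2 * D) a p :=
      sum_congr rfl fun p _ => hr a p
    rw [h8]
    linarith
  -- duality
  have hAm : ∀ a ∈ A, (0 : ℤ) ≤ (a : ℤ) ∧ (a : ℤ) ≤ N := by
    intro a ha
    have := mem_Icc.1 (hA ha)
    omega
  have hrf : ∀ a, r a = fun n => rr (uu (c a) (2 * D) Q) (2 * D) a n := fun a => funext (hr a)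
  have hd := dualS N hN1 A r
    (fun a _ a' _ => by
      rw [hrf a, hrf a']
      exact summable_rr N (2 * D) hN1 _ _ a a')
    (fun a => 12 * C0 * (N * Real.log N * (L ^ t) ^ 4 * ((T a).card / D)))
    (CO * (N : ℝ) ^ (1 - η₀))
    (by
      intro a ha
      rw [hrf a]
      exact diag_sp hN3 (hSp a ha) hD1 hτ1 Q a (hAm a ha).1 (hAm a ha).2)
    (by positivity)
    (by
      intro a ha a' ha' hne
      rw [hrf a, hrf a', hQ]
      exact (le_abs_self _).trans (hcorr N D (by omega) (by rw [← hQ]; exact hQD) hDθ a a'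
        (hAm a ha).1 (hAm a ha).2 (hAm a' ha').1 (hAm a' ha').2 (by exact_mod_cast hne)
        (c a) (c a') (hSp a ha).cof (hSp a' ha').cof (hcP a ha) (hcP a' ha')))
  have hlow : s * (N / (2 * L ^ U)) ≤ ∑ a ∈ A, ∑ p ∈ (Icc 1 N).filter Nat.Prime, r a p := by
    rw [hs, sum_mul]
    exact sum_le_sum hps
  have hsq : (s * (N / (2 * L ^ U))) ^ 2 ≤
      (∑ a ∈ A, ∑ p ∈ (Icc 1 N).filter Nat.Prime, r a p) ^ 2 :=
    pow_le_pow_left₀ (by positivity) hlow 2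
  have hmain := hsq.trans hd
  rw [← hL] at hmain
  have hGs : ∑ a ∈ A, 12 * C0 * (N * L * (L ^ t) ^ 4 * ((T a).card / D)) =
      12 * C0 * (N * L * (L ^ t) ^ 4) * s := by
    rw [hs, mul_sum]
    exact sum_congr rfl fun a _ => by ring
  rw [hGs] at hmain
  have hO1 : (A.card : ℝ) ^ 2 * (CO * (N : ℝ) ^ (1 - η₀)) ≤ CO * (N : ℝ) ^ (1 - η₀ / 2) := by
    have h1 : (A.card : ℝ) ^ 2 ≤ ((N : ℝ) ^ (η₀ / 4)) ^ 2 :=
      pow_le_pow_left₀ (Nat.cast_nonneg _) hAc 2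
    calc (A.card : ℝ) ^ 2 * (CO * (N : ℝ) ^ (1 - η₀))
        ≤ ((N : ℝ) ^ (η₀ / 4)) ^ 2 * (CO * (N : ℝ) ^ (1 - η₀)) := by gcongr
      _ = CO * (((N : ℝ) ^ (η₀ / 4)) ^ 2 * (N : ℝ) ^ (1 - η₀)) := by ring
      _ = CO * (N : ℝ) ^ (1 - η₀ / 2) := by
          rw [← Real.rpow_natCast ((N : ℝ) ^ (η₀ / 4)), ← Real.rpow_mul hNr0.le,
            ← Real.rpow_add hNr0]
          congr 2
          push_cast
          ring
  -- the quadratic inequality
  have hNp : (N : ℝ) ^ (1 - η₀ / 2) * (N : ℝ) ^ (η₀ / 2) = N := by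
    rw [← Real.rpow_add hNr0, sub_add_cancel, Real.rpow_one]
  have hLU : 0 < L ^ U := by positivity
  have hfin : s ^ 2 ≤ 1200 * C0 * L ^ (2 * U + 4 * t + 1) * s + 1 := by
    have h1 : (s * (N / (2 * L ^ U))) ^ 2 ≤
        25 * N * (12 * C0 * (N * L * (L ^ t) ^ 4) * s + CO * (N : ℝ) ^ (1 - η₀ / 2)) := by
      refine hmain.trans ?_
      gcongr
    have h2 : s ^ 2 * (N : ℝ) ^ 2 ≤ (1200 * C0 * L ^ (2 * U + 4 * t + 1) * s + 1) * (N : ℝ) ^ 2 := by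
      calc s ^ 2 * (N : ℝ) ^ 2 = (4 * L ^ (2 * U)) * (s * (N / (2 * L ^ U))) ^ 2 := by
            rw [mul_comm 2 U, pow_mul]
            field_simp
            norm_num
        _ ≤ (4 * L ^ (2 * U)) * (25 * N * (12 * C0 * (N * L * (L ^ t) ^ 4) * s +
              CO * (N : ℝ) ^ (1 - η₀ / 2))) := by gcongr
        _ = 1200 * C0 * L ^ (2 * U + 4 * t + 1) * s * (N : ℝ) ^ 2 +
              N * ((100 * CO * L ^ (2 * U)) * (N : ℝ) ^ (1 - η₀ / 2)) := by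
            rw [pow_add, pow_add, pow_mul' L 4 t]
            ring
        _ ≤ 1200 * C0 * L ^ (2 * U + 4 * t + 1) * s * (N : ℝ) ^ 2 +
              N * ((N : ℝ) ^ (η₀ / 2) * (N : ℝ) ^ (1 - η₀ / 2)) := by gcongr
        _ = _ := by
            rw [mul_comm ((N : ℝ) ^ (η₀ / 2)), hNp]
            ring
    exact le_of_mul_le_mul_right h2 (by positivity)
  obtain ⟨W, hW⟩ : ∃ W : ℝ, W = 1200 * C0 * L ^ (2 * U + 4 * t + 1) := ⟨_, rfl⟩
  rw [← hW] at hfin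
  have hW0 : 0 ≤ W := by rw [hW]; positivity
  have hsW : s ≤ W + 1 := by
    by_contra hcon
    push Not at hcon
    nlinarith
  calc s ≤ W + 1 := hsW
    _ ≤ 1200 * C0 * L ^ (2 * U + 4 * t + 1) + 1 * L ^ (2 * U + 4 * t + 1) := by
        rw [hW]; linarith
    _ ≤ (1200 * C0 + 1 + N0) * L ^ (2 * U + 4 * t + 1) := by
        have : 0 ≤ (N0 : ℝ) * L ^ (2 * U + 4 * t + 1) := by positivity
        linarith

end Pool.Agent.W109.C
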