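import Pool.Agent.W109.C.C6
import Pool.Agent.W109.C.G4

/-!
Maximum over the residues inside, moduli with a property `P`: the main theorem.
-/

set_option autoImplicit false

namespace Pool.Agent.W109.C

open Finset
open Pool.Agent.H442R2.KF

open Classical in
/-- the moduli -/
noncomputable def mo (P : ℕ → ℕ → Prop) (N : ℕ) (θ : ℝ) : Finset ℕ :=
  (Icc 1 ⌊(N : ℝ) ^ θ⌋₊).filter (fun q => P N q)

lemma mem_mo {P : ℕ → ℕ → Prop} {N : ℕ} {θ : ℝ} {q : ℕ} :
    q ∈ mo P N θ ↔ q ∈ Icc 1 ⌊(N : ℝ) ^ θ⌋₊ ∧ P N q := by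
  classical
  unfold mo
  rw [mem_filter]

theorem main_gen (θ : ℝ) (hθ : θ < 3 / 4) (P : ℕ → ℕ → Prop) (hPc : HCorr θ P) : ∃ η : ℝ, 0 < η ∧ ∀ U : ℕ, ∃ (B : ℕ) (C : ℝ), 0 < C ∧
    ∀ N : ℕ, 3 ≤ N → ∃ Z : Finset ℕ,
    ∑ q ∈ Z, 1 / (Nat.totient q : ℝ) ≤ C / Real.log N ^ U ∧
    ∀ A : Finset ℕ, A ⊆ Icc 1 N → (A.card : ℝ) ≤ (N : ℝ) ^ η → ∃ X : ℕ → Finset ℕ,
    (∀ q, X q ⊆ A) ∧
    ∑ q ∈ Icc 1 ⌊(N : ℝ) ^ θ⌋₊, ((X q).card : ℝ) / (Nat.totient q : ℝ) ≤ C * Real.log N ^ B ∧
    (∀ q ∈ mo P N θ, q ∉ Z → ∀ a ∈ A, a ∉ X q → Nat.Coprime a q →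
      |Er N q a| ≤ C * (N / (q * Real.log N ^ U))) ∧
    (∀ α : ℕ → ℕ, ∑ q ∈ (mo P N θ).filter
      (fun q => α q ∈ A ∧ α q ∉ X q ∧ Nat.Coprime (α q) q), |Er N q (α q)| ≤
        C * (N / Real.log N ^ U)) := by
  classical
  obtain ⟨η, hη, hblock⟩ := block_gen θ hθ P hPc
  refine ⟨η, hη, fun U => ?_⟩
  obtain ⟨t, ht⟩ : ∃ t : ℕ, t = U + 4 := ⟨_, rfl⟩
  obtain ⟨CB, hCB, hbl⟩ := hblock t (U + 1)
  obtain ⟨V, hV⟩ : ∃ V : ℕ, V = U + 1 + 2 * t + 1 := ⟨_, rfl⟩
  obtain ⟨CV, hCV, hbd⟩ := sum_Bd (V + t + 1 + U)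
  obtain ⟨B, hB⟩ : ∃ B : ℕ, B = 2 * (U + 1) + 4 * t + 1 := ⟨_, rfl⟩
  refine ⟨B + t + 1, 3 * CB + 4 + 3 * (16 + 2 * CV), by positivity, fun N hN => ?_⟩
  have hl := TaskR2b.one_le_log hN
  have hl0 : 0 < Real.log N := by linarith
  have hNr : (3 : ℝ) ≤ N := by exact_mod_cast hN
  have hNr1 : (1 : ℝ) ≤ N := by linarith
  have hNr0 : (0 : ℝ) < N := by linarith
  obtain ⟨M, hM⟩ : ∃ M : ℕ, M = ⌊(N : ℝ) ^ θ⌋₊ := ⟨_, rfl⟩
  have hmo : ∀ q, q ∈ mo P N θ ↔ q ∈ Icc 1 M ∧ P N q := by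
    intro q
    rw [mem_mo, hM]
  rw [← hM]
  have hMθ : (M : ℝ) ≤ (N : ℝ) ^ θ := by rw [hM]; exact Nat.floor_le (by positivity)
  have hMN : M ≤ N := by
    have h1 : (N : ℝ) ^ θ ≤ (N : ℝ) ^ (1 : ℝ) :=
      Real.rpow_le_rpow_of_exponent_le hNr1 (by linarith)
    rw [Real.rpow_one] at h1
    exact_mod_cast hMθ.trans h1
  have hlogM : Real.log M ≤ Real.log N := by
    rcases Nat.eq_zero_or_pos M with h0 | h0
    · rw [h0, Nat.cast_zero, Real.log_zero]; exact hl0.le
    · exact Real.log_le_log (by exact_mod_cast h0) (by exact_mod_cast hMN)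
  have hlogM0 : 0 ≤ Real.log (M : ℝ) := Real.log_natCast_nonneg M
  obtain ⟨q1, q2, q3⟩ := TaskO.QN_facts N (by omega)
  obtain ⟨L, hL⟩ : ∃ L : ℝ, L = Real.log N := ⟨_, rfl⟩
  have hbl' := hbl N
  rw [← hL] at hl hl0 hlogM hbl' ⊢
  have hLU : 0 < L ^ U := by positivity
  have hLt : 0 < L ^ t := by positivity
  have hLV : 0 < L ^ V := by positivity
  obtain ⟨δ, hδ⟩ : ∃ δ : ℝ, δ = N / L ^ V := ⟨_, rfl⟩
  have hδ0 : 0 < δ := by rw [hδ]; positivity
  obtain ⟨Z, hZ⟩ : ∃ Z : Finset ℕ, Z = Bad N M (L ^ t) δ := ⟨_, rfl⟩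
  have hZsum : ∑ q ∈ Z, 1 / (Nat.totient q : ℝ) ≤ (16 + 2 * CV) / L ^ U := by
    have h1 := sum_Bad (N := N) (M := M) (δ := δ) hLt
    have h2 := hbd N hN δ hδ0
    rw [← hL] at h2
    rw [hZ]
    refine h1.trans ?_
    have h3 : (1 + Real.log M) ≤ 2 * L := by linarith
    have h4 : (1 + Real.log M) ^ 4 / L ^ t ≤ 16 / L ^ U := by
      calc (1 + Real.log M) ^ 4 / L ^ t ≤ (2 * L) ^ 4 / L ^ t := by gcongr
        _ = 16 / L ^ U := by
            rw [ht, pow_add]
            field_simp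
            norm_num
    have h5 : L ^ t * ((1 + Real.log M) * ∑ b ∈ Bd N δ, 1 / (b : ℝ)) ≤ 2 * CV / L ^ U := by
      calc L ^ t * ((1 + Real.log M) * ∑ b ∈ Bd N δ, 1 / (b : ℝ))
          ≤ L ^ t * (2 * L * (CV * (N / L ^ (V + t + 1 + U)) / δ)) := by
            refine mul_le_mul_of_nonneg_left ?_ hLt.le
            exact mul_le_mul h3 h2 (sum_nonneg fun _ _ => by positivity) (by positivity)
        _ = 2 * CV / L ^ U := by
            rw [hδ, pow_add, pow_add, pow_add]
            field_simp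
    calc (1 + Real.log M) ^ 4 / L ^ t + L ^ t * ((1 + Real.log M) * ∑ b ∈ Bd N δ, 1 / (b : ℝ))
        ≤ 16 / L ^ U + 2 * CV / L ^ U := add_le_add h4 h5
      _ = _ := by ring
  refine ⟨Z, ?_, ?_⟩
  · refine hZsum.trans ?_
    refine div_le_div_of_nonneg_right ?_ hLU.le
    linarith
  intro A hA hAc
  obtain ⟨X, hX⟩ : ∃ X : ℕ → Finset ℕ, ∀ q, X q = if q ∈ Icc 1 M ∧ QN N < q ∧ q ∉ Z ∧ P N q then
      A.filter (fun a => Nat.Coprime a q ∧ 2 * (N / (q * L ^ (U + 1))) < |Er N q a|) else ∅ :=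
    ⟨_, fun _ => rfl⟩
  have hXA : ∀ q, X q ⊆ A := by
    intro q
    rw [hX]
    split_ifs
    · exact filter_subset _ _
    · exact empty_subset _
  -- good moduli
  have hgood : ∀ q ∈ Icc 1 M, q ∉ Z → tau q ≤ L ^ t ∧ ∀ a, Nat.Coprime a q → ∀ d, d ∣ q →
      d ≤ QN N → d * |Er N d a| ≤ δ := by
    intro q hq hqZ
    rw [hZ, mem_Bad, not_and, not_or] at hqZ
    obtain ⟨h1, h2⟩ := hqZ hq
    refine ⟨not_lt.1 h1, fun a ha d hd hdQ => ?_⟩
    by_contra hcon
    push Not at hcon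
    refine h2 ⟨d, ?_, hd⟩
    rw [mem_Bd, mem_Icc]
    exact ⟨⟨Nat.pos_of_dvd_of_pos hd (mem_Icc.1 hq).1, hdQ⟩, a, Nat.Coprime.coprime_dvd_right hd ha,
      hcon⟩
  -- pointwise
  have hpt : ∀ q ∈ Icc 1 M, P N q → q ∉ Z → ∀ a ∈ A, a ∉ X q → Nat.Coprime a q →
      |Er N q a| ≤ 2 * (N / (q * L ^ (U + 1))) := by
    intro q hq hPq hqZ a ha haX hcop
    have hq1 := (mem_Icc.1 hq).1
    have hq0 : (0 : ℝ) < q := by exact_mod_cast hq1
    by_cases hqQ : QN N < q
    · by_contra hcon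
      push Not at hcon
      apply haX
      rw [hX, if_pos ⟨hq, hqQ, hqZ, hPq⟩, mem_filter]
      exact ⟨ha, hcop, hcon⟩
    · push Not at hqQ
      have h1 := (hgood q hq hqZ).2 a hcop q dvd_rfl hqQ
      have h2 : |Er N q a| ≤ δ / q := by
        rw [le_div_iff₀ hq0]
        linarith
      refine h2.trans ?_
      have h3 : L ^ (U + 1) ≤ L ^ V := pow_le_pow_right₀ hl (by omega)
      have h4 : δ / q ≤ N / (q * L ^ (U + 1)) := by
        rw [hδ, div_div, mul_comm (L ^ V)]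
        gcongr
      have h5 : 0 ≤ (N : ℝ) / (q * L ^ (U + 1)) := by positivity
      linarith
  have hLU1 : L ^ U ≤ L ^ (U + 1) := pow_le_pow_right₀ hl (by omega)
  refine ⟨X, hXA, ?_, ?_, ?_⟩
  · -- the number of exceptional pairs
    obtain ⟨I, hI⟩ : ∃ I : ℕ, I = Nat.log 2 N + 1 := ⟨_, rfl⟩
    have hMI : M < 2 ^ I := by
      rw [hI]
      exact lt_of_le_of_lt hMN (Nat.lt_pow_succ_log_self (by norm_num) N)
    have hIL : (I : ℝ) ≤ 3 * L := by
      rw [hI]
      push_cast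
      have h1 : (2 : ℝ) ^ (Nat.log 2 N) ≤ N := by
        exact_mod_cast Nat.pow_log_le_self 2 (by omega : N ≠ 0)
      have h2 : (Nat.log 2 N : ℝ) * Real.log 2 ≤ L := by
        rw [hL, ← Real.log_pow]
        exact Real.log_le_log (by positivity) h1
      have h3 : (0.69 : ℝ) ≤ Real.log 2 := by
        have := Real.log_two_gt_d9
        linarith
      have h4 : (0 : ℝ) ≤ Nat.log 2 N := Nat.cast_nonneg _
      nlinarith
    have hstep : ∀ i ∈ range I, ∑ q ∈ (Ioc (QN N * 2 ^ i) (2 * (QN N * 2 ^ i))).filter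
        (fun q => q ≤ M), ((X q).card : ℝ) / q ≤ CB * L ^ B := by
      intro i _
      obtain ⟨D, hD⟩ : ∃ D : ℕ, D = QN N * 2 ^ i := ⟨_, rfl⟩
      rw [← hD]
      have hQD : QN N ≤ D := by
        rw [hD]
        exact Nat.le_mul_of_pos_right _ (by positivity)
      have hD1 : 1 ≤ D := q1.trans hQD
      have hD0 : (0 : ℝ) < D := by exact_mod_cast hD1
      by_cases hDM : M < D
      · have : (Ioc D (2 * D)).filter (fun q => q ≤ M) = ∅ := by
          rw [filter_eq_empty_iff]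
          intro q hq
          rw [mem_Ioc] at hq
          omega
        rw [this, sum_empty]
        positivity
      push Not at hDM
      have hDθ : (D : ℝ) ≤ (N : ℝ) ^ θ := by
        have : (D : ℝ) ≤ M := by exact_mod_cast hDM
        linarith
      obtain ⟨T, hT⟩ : ∃ T : ℕ → Finset ℕ, ∀ a, T a = ((Ioc D (2 * D)).filter
        (fun q => q ≤ M)).filter (fun q => a ∈ X q) := ⟨_, fun _ => rfl⟩
      have h1 := hbl' D hN hQD hDθ A hA hAc T
        (fun a _ => by
          rw [hT]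
          exact (filter_subset _ _).trans (filter_subset _ _))
        (by
          intro a _ e he
          rw [hT, mem_filter] at he
          have e4 := he.2
          rw [hX] at e4
          split_ifs at e4 with h5
          · exact h5.2.2.2
          · exact absurd e4 (notMem_empty a))
        (by
          intro a ha e he
          rw [hT, mem_filter, mem_filter, mem_Ioc] at he
          obtain ⟨⟨⟨e1, e2⟩, e3⟩, e4⟩ := he
          have heM : e ∈ Icc 1 M := by rw [mem_Icc]; omega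
          rw [hX] at e4
          split_ifs at e4 with h5
          · rw [mem_filter] at e4
            obtain ⟨-, h6, h7⟩ := e4
            have h8 := hgood e heM h5.2.2.1
            refine ⟨h6, h8.1, ?_, ?_⟩
            · intro d hd hdQ
              have h9 := h8.2 a h6 d hd hdQ
              rw [hδ, hV] at h9
              exact h9
            · refine le_trans ?_ h7.le
              have he0 : (0 : ℝ) < e := by
                have : 0 < e := by omega
                exact_mod_cast this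
              have he2 : (e : ℝ) ≤ 2 * D := by exact_mod_cast e2
              have hLU' : 0 < L ^ (U + 1) := by positivity
              rw [mul_div_assoc', div_le_div_iff₀ (by positivity) (by positivity)]
              calc (N : ℝ) * (e * L ^ (U + 1)) ≤ N * (2 * D * L ^ (U + 1)) := by gcongr
                _ = 2 * N * (D * L ^ (U + 1)) := by ring
          · exact absurd e4 (notMem_empty a))
      rw [← hB] at h1
      refine le_trans ?_ h1
      have h2 : ∑ a ∈ A, (((T a).card : ℝ) / D) =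
          ∑ q ∈ (Ioc D (2 * D)).filter (fun q => q ≤ M), ((X q).card : ℝ) / D := by
        have h3 : ∀ a ∈ A, (((T a).card : ℝ) / D) =
            ∑ q ∈ (Ioc D (2 * D)).filter (fun q => q ≤ M), (if a ∈ X q then 1 / (D : ℝ) else 0) := by
          intro a _
          rw [hT, ← sum_filter, sum_const, nsmul_eq_mul, mul_one_div]
        rw [sum_congr rfl h3, sum_comm]
        refine sum_congr rfl fun q _ => ?_
        rw [← sum_filter, sum_const, nsmul_eq_mul, mul_one_div]
        congr 2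
        congr 1
        ext a
        rw [mem_filter]
        exact ⟨fun h => h.2, fun h => ⟨hXA q h, h⟩⟩
      rw [h2]
      refine sum_le_sum fun q hq => ?_
      rw [mem_filter, mem_Ioc] at hq
      have hqD : (D : ℝ) ≤ q := by exact_mod_cast hq.1.1.le
      exact div_le_div_of_nonneg_left (Nat.cast_nonneg _) hD0 hqD
    have hX0 : ∀ q ∈ Icc 1 M, q ∉ Ioc (QN N) M → X q = ∅ := by
      intro q hq hn
      rw [hX, if_neg]
      rintro ⟨h1, h2, -⟩
      rw [mem_Icc] at h1
      exact hn (mem_Ioc.2 ⟨h2, h1.2⟩)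
    have hsub : Ioc (QN N) M ⊆ Icc 1 M := by
      intro q hq
      rw [mem_Ioc] at hq
      rw [mem_Icc]
      omega
    calc ∑ q ∈ Icc 1 M, ((X q).card : ℝ) / (Nat.totient q : ℝ)
        ≤ ∑ q ∈ Icc 1 M, L ^ t * (((X q).card : ℝ) / q) := by
          refine sum_le_sum fun q hq => ?_
          by_cases hqZ : q ∈ Z
          · have : X q = ∅ := by
              rw [hX, if_neg]
              rintro ⟨-, -, h3, -⟩
              exact h3 hqZ
            rw [this]
            simp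
          · have h1 := (hgood q hq hqZ).1
            have h2 := inv_phi_le q (mem_Icc.1 hq).1
            have hq0 : (0 : ℝ) < q := by exact_mod_cast (mem_Icc.1 hq).1
            calc ((X q).card : ℝ) / (Nat.totient q : ℝ)
                = (X q).card * (1 / (Nat.totient q : ℝ)) := by ring
              _ ≤ (X q).card * (tau q / q) := mul_le_mul_of_nonneg_left h2 (Nat.cast_nonneg _)
              _ ≤ (X q).card * (L ^ t / q) := by gcongr
              _ = _ := by ring
      _ = L ^ t * ∑ q ∈ Icc 1 M, ((X q).card : ℝ) / q := by rw [mul_sum]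
      _ = L ^ t * ∑ q ∈ Ioc (QN N) M, ((X q).card : ℝ) / q := by
          rw [sum_subset hsub]
          intro q hq hn
          rw [hX0 q hq hn]
          simp
      _ ≤ L ^ t * ∑ i ∈ range I, ∑ q ∈ (Ioc (QN N * 2 ^ i) (2 * (QN N * 2 ^ i))).filter
            (fun q => q ≤ M), ((X q).card : ℝ) / q := by
          refine mul_le_mul_of_nonneg_left ?_ hLt.le
          exact dyadic (QN N) M I q1 hMI (fun q => ((X q).card : ℝ) / q) fun q => by positivity
      _ ≤ L ^ t * ∑ i ∈ range I, CB * L ^ B := by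
          refine mul_le_mul_of_nonneg_left (sum_le_sum hstep) hLt.le
      _ = L ^ t * (I * (CB * L ^ B)) := by rw [sum_const, card_range, nsmul_eq_mul]
      _ ≤ L ^ t * (3 * L * (CB * L ^ B)) := by gcongr
      _ = 3 * CB * L ^ (B + t + 1) := by rw [pow_add, pow_add]; ring
      _ ≤ (3 * CB + 4 + 3 * (16 + 2 * CV)) * L ^ (B + t + 1) := by
          refine mul_le_mul_of_nonneg_right ?_ (by positivity)
          linarith
  · intro q hq hqZ a ha haX hcop
    rw [hmo] at hq
    refine (hpt q hq.1 hq.2 hqZ a ha haX hcop).trans ?_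
    have hq0 : (0 : ℝ) < q := by exact_mod_cast (mem_Icc.1 hq.1).1
    calc 2 * ((N : ℝ) / (q * L ^ (U + 1))) ≤ 2 * (N / (q * L ^ U)) := by gcongr
      _ ≤ _ := by
          refine mul_le_mul_of_nonneg_right ?_ (by positivity)
          linarith
  · intro α
    obtain ⟨S, hS⟩ : ∃ S : Finset ℕ, S = (mo P N θ).filter
      (fun q => α q ∈ A ∧ α q ∉ X q ∧ Nat.Coprime (α q) q) := ⟨_, rfl⟩
    rw [← hS]
    have hSm : ∀ q ∈ S, (q ∈ Icc 1 M ∧ P N q) ∧ α q ∈ A ∧ α q ∉ X q ∧ Nat.Coprime (α q) q := by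
      intro q hq
      rw [hS, mem_filter, hmo] at hq
      exact hq
    rw [← sum_filter_add_sum_filter_not S (fun q => q ∈ Z)]
    have h1 : ∑ q ∈ S.filter (fun q => q ∈ Z), |Er N q (α q)| ≤
        3 * (16 + 2 * CV) * (N / L ^ U) := by
      calc ∑ q ∈ S.filter (fun q => q ∈ Z), |Er N q (α q)|
          ≤ ∑ q ∈ S.filter (fun q => q ∈ Z), 3 * (N * (1 / (Nat.totient q : ℝ))) := by
            refine sum_le_sum fun q hq => ?_
            rw [mem_filter] at hq
            have h2 := mem_Icc.1 (hSm q hq.1).1.1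
            exact Er_triv N q (α q) h2.1 (h2.2.trans hMN)
        _ ≤ ∑ q ∈ Z, 3 * (N * (1 / (Nat.totient q : ℝ))) := by
            refine sum_le_sum_of_subset_of_nonneg ?_ fun _ _ _ => by positivity
            intro q hq
            exact (mem_filter.1 hq).2
        _ = 3 * N * ∑ q ∈ Z, 1 / (Nat.totient q : ℝ) := by
            rw [mul_sum]
            exact sum_congr rfl fun q _ => by ring
        _ ≤ 3 * N * ((16 + 2 * CV) / L ^ U) := mul_le_mul_of_nonneg_left hZsum (by positivity)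
        _ = _ := by ring
    have h2 : ∑ q ∈ S.filter (fun q => ¬ q ∈ Z), |Er N q (α q)| ≤ 4 * (N / L ^ U) := by
      calc ∑ q ∈ S.filter (fun q => ¬ q ∈ Z), |Er N q (α q)|
          ≤ ∑ q ∈ S.filter (fun q => ¬ q ∈ Z), 2 * (N / L ^ (U + 1)) * (1 / (q : ℝ)) := by
            refine sum_le_sum fun q hq => ?_
            rw [mem_filter] at hq
            obtain ⟨g1, g2, g3, g4⟩ := hSm q hq.1
            refine (hpt q g1.1 g1.2 hq.2 (α q) g2 g3 g4).trans (le_of_eq ?_)
            have hq0 : (0 : ℝ) < q := by exact_mod_cast (mem_Icc.1 g1.1).1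
            field_simp
        _ ≤ ∑ q ∈ Icc 1 M, 2 * (N / L ^ (U + 1)) * (1 / (q : ℝ)) := by
            refine sum_le_sum_of_subset_of_nonneg ?_ fun _ _ _ => by positivity
            intro q hq
            exact (hSm q (mem_filter.1 hq).1).1.1
        _ = 2 * (N / L ^ (U + 1)) * ∑ q ∈ Icc 1 M, (1 : ℝ) / q := by rw [mul_sum]
        _ ≤ 2 * (N / L ^ (U + 1)) * (2 * L) := by
            refine mul_le_mul_of_nonneg_left ?_ (by positivity)
            refine (TaskP.harm M).trans ?_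
            linarith
        _ = 4 * (N / L ^ U) := by
            rw [pow_succ]
            field_simp
            norm_num
    have h3 : 0 ≤ 3 * CB * (N / L ^ U) := by positivity
    calc ∑ q ∈ S.filter (fun q => q ∈ Z), |Er N q (α q)| +
          ∑ q ∈ S.filter (fun q => ¬ q ∈ Z), |Er N q (α q)|
        ≤ 3 * (16 + 2 * CV) * (N / L ^ U) + 4 * (N / L ^ U) := add_le_add h1 h2
      _ ≤ _ := by linarith

end Pool.Agent.W109.C
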