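import Pool.Agent.W109.C.G6
import Pool.Agent.H442R2.FX.Asm
import Pool.Agent.H442R2.EHI.PntErr
import Pool.Agent.H442R2.EHI.FinalOf

/-!
Maximum over the residues inside: smooth and factorable squarefree moduli up to `N^(5/9-ε)`.
-/

set_option autoImplicit false

namespace Pool.Agent.W109.C

open Finset
open Pool.Agent.H442R2.KF
open Pool.Agent.H442R2.FX

/-- moduli up to `N^(51/100)`, and factorable ones -/
def PF (θ δ : ℝ) (N d : ℕ) : Prop := (d : ℝ) ≤ (N : ℝ) ^ (51 / 100 : ℝ) ∨ FacD N θ δ d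

theorem hcorr_PF (θ δ : ℝ) (h1 : 1 / 2 ≤ θ) (h2 : θ < 5 / 9) (h3 : 0 < δ) : HCorr θ (PF θ δ) := by
  obtain ⟨η₁, C₁, hη₁, hC₁, hc1⟩ := corr2 (51 / 100) (by norm_num)
  obtain ⟨η₂, C₂, hη₂, hC₂, hc2⟩ := CF (BF (EF WF)) θ δ h1 h2 h3
  refine ⟨min η₁ η₂, C₁ + C₂, lt_min hη₁ hη₂, by positivity, ?_⟩
  intro N D hN hQD hD a a' ha haN ha' haN' hne c c' hc hc' hP hP'
  have hN1 : (1 : ℝ) ≤ N := by exact_mod_cast (by omega : 1 ≤ N)
  rcases le_or_gt (D : ℝ) ((N : ℝ) ^ (51 / 100 : ℝ)) with hDs | hDs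
  · refine (hc1 N D hN hQD hDs a a' ha haN ha' haN' hne c c' hc hc').trans ?_
    have h4 : (N : ℝ) ^ (1 - η₁) ≤ (N : ℝ) ^ (1 - min η₁ η₂) :=
      Real.rpow_le_rpow_of_exponent_le hN1 (by linarith [min_le_left η₁ η₂])
    have h5 : 0 ≤ (N : ℝ) ^ (1 - min η₁ η₂) := by positivity
    calc C₁ * (N : ℝ) ^ (1 - η₁) ≤ C₁ * (N : ℝ) ^ (1 - min η₁ η₂) := by gcongr
      _ ≤ _ := by nlinarith
  · have hfac : ∀ c : ℕ → ℝ, Cof D c → (∀ d, c d ≠ 0 → PF θ δ N d) →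
        ∀ d, c d ≠ 0 → FacD N θ δ d := by
      intro c hc hP d hd
      rcases hP d hd with h | h
      · exfalso
        have h6 : d ∈ Ioc D (2 * D) := by
          by_contra hcon
          exact hd (hc.supp d hcon)
        rw [mem_Ioc] at h6
        have h7 : (D : ℝ) < d := by exact_mod_cast h6.1
        linarith
      · exact h
    refine (hc2 N D hN hQD hD a a' ha haN ha' haN' hne c c' hc hc' (hfac c hc hP)
      (hfac c' hc' hP')).trans ?_
    have h4 : (N : ℝ) ^ (1 - η₂) ≤ (N : ℝ) ^ (1 - min η₁ η₂) :=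
      Real.rpow_le_rpow_of_exponent_le hN1 (by linarith [min_le_right η₁ η₂])
    have h5 : 0 ≤ (N : ℝ) ^ (1 - min η₁ η₂) := by positivity
    calc C₂ * (N : ℝ) ^ (1 - η₂) ≤ C₂ * (N : ℝ) ^ (1 - min η₁ η₂) := by gcongr
      _ ≤ _ := by nlinarith

/-- smooth numbers are in the family -/
lemma smooth_PF (θ δ : ℝ) (h1 : 1 / 2 ≤ θ) (h3 : 0 < δ) (N d : ℕ) (hN : 2 ≤ N)
    (hd1 : 1 ≤ d) (hsq : Squarefree d)
    (hsm : ∀ p : ℕ, p.Prime → p ∣ d → (p : ℝ) ≤ (N : ℝ) ^ (5 - 9 * θ - 2 * δ)) : PF θ δ N d := by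
  have hN1 : (1 : ℝ) ≤ N := by exact_mod_cast (by omega : 1 ≤ N)
  have hN0 : (0 : ℝ) < N := by linarith
  rcases lt_or_ge (5 - 9 * θ - 2 * δ) 0 with hneg | hpos
  · left
    have hd : d = 1 := by
      by_contra hne
      obtain ⟨p, hp, hpd⟩ := Nat.exists_prime_and_dvd hne
      have h4 := hsm p hp hpd
      have h5 : (N : ℝ) ^ (5 - 9 * θ - 2 * δ) ≤ 1 :=
        Real.rpow_le_one_of_one_le_of_nonpos hN1 hneg.le
      have h6 : (2 : ℝ) ≤ p := by exact_mod_cast hp.two_le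
      linarith
    rw [hd]
    push_cast
    exact Real.one_le_rpow hN1 (by norm_num)
  · obtain ⟨lo, hlo⟩ : ∃ lo : ℝ, lo = (N : ℝ) ^ (2 * θ - 1 + δ) := ⟨_, rfl⟩
    have hlo1 : 1 ≤ lo := by
      rw [hlo]
      exact Real.one_le_rpow hN1 (by linarith)
    rcases lt_or_ge (d : ℝ) lo with h | h
    · left
      refine h.le.trans ?_
      rw [hlo]
      exact Real.rpow_le_rpow_of_exponent_le hN1 (by linarith)
    · right
      obtain ⟨s, hs1, hs2, hs3⟩ := GR d lo ((N : ℝ) ^ (5 - 9 * θ - 2 * δ)) hlo1 h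
        (Real.one_le_rpow hN1 hpos) hsm
      refine ⟨hsq, s, hs1, by rw [← hlo]; exact hs2, ?_⟩
      refine hs3.trans (le_of_eq ?_)
      rw [hlo, ← Real.rpow_add hN0]
      congr 1
      ring

/-- `li` -/
noncomputable def liN (N : ℕ) : ℝ := ∫ t in (2 : ℝ)..N, 1 / Real.log t

/-- the prime number theorem -/
theorem pnt_li (U : ℕ) : ∃ C : ℝ, 0 < C ∧ ∀ N : ℕ, 3 ≤ N →
    |(piN N : ℝ) - liN N| ≤ C * (N / Real.log N ^ U) := by
  obtain ⟨C, hC⟩ := Pool.Agent.H442R2.EHI.pnt_err U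
  obtain ⟨C', hC', h'⟩ := TaskQ.log_pow U
  refine ⟨|C| + 2 * C', by positivity, fun N hN => ?_⟩
  have h1 := hC N (by omega)
  have h2 := Pool.Agent.H442R2.EHI.FinalOf.lis_sub N (by omega)
  have h3 := h' N hN
  have hN1 : (1 : ℝ) ≤ N := by exact_mod_cast (by omega : 1 ≤ N)
  have hl := TaskR2b.one_le_log hN
  have hl0 : 0 < Real.log N := by linarith
  have h4 : 1 ≤ (N : ℝ) ^ (1 - 1 / 400 : ℝ) := Real.one_le_rpow hN1 (by norm_num)
  have h5 : 0 ≤ (N : ℝ) / Real.log N ^ U := by positivity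
  have h6 : (piN N : ℝ) = (((Icc 1 N).filter (fun p : ℕ => p.Prime)).card : ℝ) := rfl
  have h7 : |(piN N : ℝ) - liN N| ≤ |(piN N : ℝ) - Pool.Agent.H442R2.EHI.lis N| +
      |Pool.Agent.H442R2.EHI.lis N - liN N| := by
    have := abs_add_le ((piN N : ℝ) - Pool.Agent.H442R2.EHI.lis N)
      (Pool.Agent.H442R2.EHI.lis N - liN N)
    rwa [sub_add_sub_cancel] at this
  have h8 : |(piN N : ℝ) - Pool.Agent.H442R2.EHI.lis N| ≤ |C| * (N / Real.log N ^ U) := by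
    rw [h6]
    refine h1.trans ?_
    rw [mul_div_assoc]
    exact mul_le_mul_of_nonneg_right (le_abs_self C) h5
  have h9 : |Pool.Agent.H442R2.EHI.lis N - liN N| ≤ 2 := h2
  have h10 : (2 : ℝ) ≤ 2 * C' * (N / Real.log N ^ U) := by nlinarith
  calc |(piN N : ℝ) - liN N| ≤ |C| * (N / Real.log N ^ U) + 2 := by linarith
    _ ≤ |C| * (N / Real.log N ^ U) + 2 * C' * (N / Real.log N ^ U) := by linarith
    _ = _ := by ring

/-- `π(N; d, a) - li(N)/φ(d)` -/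
noncomputable def Eli (N d a : ℕ) : ℝ := (piAP N d a : ℝ) - liN N / (Nat.totient d : ℝ)

lemma sum_inv_phi_all (N M : ℕ) (hN : 3 ≤ N) (hM : M ≤ N) :
    ∑ q ∈ Icc 1 M, 1 / (Nat.totient q : ℝ) ≤ 16 * Real.log N ^ 4 := by
  have hl := TaskR2b.one_le_log hN
  have hlogM : Real.log M ≤ Real.log N := by
    rcases Nat.eq_zero_or_pos M with h0 | h0
    · rw [h0, Nat.cast_zero, Real.log_zero]; linarith
    · exact Real.log_le_log (by exact_mod_cast h0) (by exact_mod_cast hM)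
  have hlogM0 : 0 ≤ Real.log (M : ℝ) := Real.log_natCast_nonneg M
  calc ∑ q ∈ Icc 1 M, 1 / (Nat.totient q : ℝ) ≤ ∑ q ∈ Icc 1 M, tau q ^ 2 / q := by
        refine sum_le_sum fun q hq => ?_
        have hq1 := (mem_Icc.1 hq).1
        have hq0 : (0 : ℝ) < q := by exact_mod_cast hq1
        refine (inv_phi_le q hq1).trans ?_
        refine div_le_div_of_nonneg_right ?_ hq0.le
        have h1 : 1 ≤ tau q := by
          unfold tau
          have : 0 < q.divisors.card := Finset.card_pos.2 ⟨1, Nat.mem_divisors.2 ⟨one_dvd _, by omega⟩⟩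
          exact_mod_cast this
        nlinarith
    _ ≤ (1 + Real.log M) ^ 4 := sum_tau_sq_div M
    _ ≤ (2 * Real.log N) ^ 4 := by
        refine pow_le_pow_left₀ (by linarith) (by linarith) 4
    _ = _ := by ring

/-- the main theorem with `li` -/
theorem main_li (θ : ℝ) (hθ : θ < 3 / 4) (P : ℕ → ℕ → Prop) (hPc : HCorr θ P) :
    ∃ η : ℝ, 0 < η ∧ ∀ U : ℕ, ∃ (B : ℕ) (C : ℝ), 0 < C ∧
    ∀ N : ℕ, 3 ≤ N → ∃ Z : Finset ℕ,
    ∑ q ∈ Z, 1 / (Nat.totient q : ℝ) ≤ C / Real.log N ^ U ∧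
    ∀ A : Finset ℕ, A ⊆ Icc 1 N → (A.card : ℝ) ≤ (N : ℝ) ^ η → ∃ X : ℕ → Finset ℕ,
    (∀ q, X q ⊆ A) ∧
    ∑ q ∈ Icc 1 ⌊(N : ℝ) ^ θ⌋₊, ((X q).card : ℝ) / (Nat.totient q : ℝ) ≤ C * Real.log N ^ B ∧
    (∀ q ∈ mo P N θ, q ∉ Z → ∀ a ∈ A, a ∉ X q → Nat.Coprime a q →
      |Eli N q a| ≤ C * (N / (Nat.totient q * Real.log N ^ U))) ∧
    (∀ α : ℕ → ℕ, ∑ q ∈ (mo P N θ).filter
      (fun q => α q ∈ A ∧ α q ∉ X q ∧ Nat.Coprime (α q) q), |Eli N q (α q)| ≤
        C * (N / Real.log N ^ U)) := by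
  obtain ⟨η, hη, h⟩ := main_gen θ hθ P hPc
  refine ⟨η, hη, fun U => ?_⟩
  obtain ⟨B, C, hC, h1⟩ := h U
  obtain ⟨C', hC', h2⟩ := pnt_li (U + 4)
  refine ⟨B, C + 16 * C', by positivity, fun N hN => ?_⟩
  have hl := TaskR2b.one_le_log hN
  have hl0 : 0 < Real.log N := by linarith
  have hNr : (3 : ℝ) ≤ N := by exact_mod_cast hN
  have hNr1 : (1 : ℝ) ≤ N := by linarith
  have hNr0 : (0 : ℝ) < N := by linarith
  obtain ⟨Z, hZ, h3⟩ := h1 N hN
  have h2' := h2 N hN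
  obtain ⟨L, hL⟩ : ∃ L : ℝ, L = Real.log N := ⟨_, rfl⟩
  rw [← hL] at hl hl0 hZ h3 h2' ⊢
  have hLU : 0 < L ^ U := by positivity
  have hMN : ⌊(N : ℝ) ^ θ⌋₊ ≤ N := by
    apply Nat.floor_le_of_le
    calc (N : ℝ) ^ θ ≤ (N : ℝ) ^ (1 : ℝ) :=
          Real.rpow_le_rpow_of_exponent_le hNr1 (by linarith)
      _ = N := Real.rpow_one _
  have hdiff : ∀ q a, |Eli N q a| ≤ |Er N q a| + C' * (N / L ^ (U + 4)) * (1 / (Nat.totient q : ℝ)) := by
    intro q a
    have e1 : Eli N q a = Er N q a + ((piN N : ℝ) - liN N) * (1 / (Nat.totient q : ℝ)) := by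
      unfold Eli Er
      ring
    rw [e1]
    refine (abs_add_le _ _).trans (add_le_add le_rfl ?_)
    rw [abs_mul, abs_of_nonneg (by positivity : (0 : ℝ) ≤ 1 / (Nat.totient q : ℝ))]
    exact mul_le_mul_of_nonneg_right h2' (by positivity)
  refine ⟨Z, ?_, fun A hA hAc => ?_⟩
  · refine hZ.trans ?_
    exact div_le_div_of_nonneg_right (by linarith) hLU.le
  obtain ⟨X, hX0, hX1, hX2, hX3⟩ := h3 A hA hAc
  refine ⟨X, hX0, ?_, ?_, ?_⟩
  · refine hX1.trans ?_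
    exact mul_le_mul_of_nonneg_right (by linarith) (by positivity)
  · intro q hq hqZ a ha haX hcop
    have hq1 := (mem_Icc.1 (mem_mo.1 hq).1).1
    have hq0 : (0 : ℝ) < q := by exact_mod_cast hq1
    have hφ : (0 : ℝ) < Nat.totient q := by exact_mod_cast Nat.totient_pos.2 hq1
    have hφq : (Nat.totient q : ℝ) ≤ q := by exact_mod_cast Nat.totient_le q
    refine (hdiff q a).trans ?_
    have g1 := hX2 q hq hqZ a ha haX hcop
    have g2 : C * ((N : ℝ) / (q * L ^ U)) ≤ C * (N / (Nat.totient q * L ^ U)) := by gcongr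
    have g3 : C' * (N / L ^ (U + 4)) * (1 / (Nat.totient q : ℝ)) ≤
        C' * (N / (Nat.totient q * L ^ U)) := by
      have g4 : L ^ U ≤ L ^ (U + 4) := pow_le_pow_right₀ hl (by omega)
      calc C' * (N / L ^ (U + 4)) * (1 / (Nat.totient q : ℝ))
          ≤ C' * (N / L ^ U) * (1 / (Nat.totient q : ℝ)) := by gcongr
        _ = _ := by field_simp
    have g5 : 0 ≤ 15 * C' * ((N : ℝ) / (Nat.totient q * L ^ U)) := by positivity
    linarith
  · intro α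
    calc ∑ q ∈ (mo P N θ).filter (fun q => α q ∈ A ∧ α q ∉ X q ∧ Nat.Coprime (α q) q),
          |Eli N q (α q)|
        ≤ ∑ q ∈ (mo P N θ).filter (fun q => α q ∈ A ∧ α q ∉ X q ∧ Nat.Coprime (α q) q),
          (|Er N q (α q)| + C' * (N / L ^ (U + 4)) * (1 / (Nat.totient q : ℝ))) :=
          sum_le_sum fun q _ => hdiff q (α q)
      _ = ∑ q ∈ (mo P N θ).filter (fun q => α q ∈ A ∧ α q ∉ X q ∧ Nat.Coprime (α q) q),
            |Er N q (α q)| +
          ∑ q ∈ (mo P N θ).filter (fun q => α q ∈ A ∧ α q ∉ X q ∧ Nat.Coprime (α q) q),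
            C' * (N / L ^ (U + 4)) * (1 / (Nat.totient q : ℝ)) := sum_add_distrib
      _ ≤ C * (N / L ^ U) + 16 * C' * (N / L ^ U) := by
          refine add_le_add (hX3 α) ?_
          calc ∑ q ∈ (mo P N θ).filter (fun q => α q ∈ A ∧ α q ∉ X q ∧ Nat.Coprime (α q) q),
                C' * (N / L ^ (U + 4)) * (1 / (Nat.totient q : ℝ))
              ≤ ∑ q ∈ Icc 1 ⌊(N : ℝ) ^ θ⌋₊, C' * (N / L ^ (U + 4)) * (1 / (Nat.totient q : ℝ)) := by
                refine sum_le_sum_of_subset_of_nonneg ?_ fun _ _ _ => by positivity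
                intro q hq
                exact (mem_mo.1 (mem_filter.1 hq).1).1
            _ = C' * (N / L ^ (U + 4)) * ∑ q ∈ Icc 1 ⌊(N : ℝ) ^ θ⌋₊, 1 / (Nat.totient q : ℝ) := by
                rw [mul_sum]
            _ ≤ C' * (N / L ^ (U + 4)) * (16 * L ^ 4) := by
                refine mul_le_mul_of_nonneg_left ?_ (by positivity)
                rw [hL]
                exact sum_inv_phi_all N _ hN hMN
            _ = 16 * C' * (N / L ^ U) := by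
                rw [pow_add]
                field_simp
      _ = _ := by ring

end Pool.Agent.W109.C
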